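import Pool.Agent.Lib.MP_1f54e8_co.Formula

set_option autoImplicit false

namespace Pool.Agent.Lib.MP_1f54e8_co

open Finset Filter Topology

theorem bsum_eq_sum (f : List Bool → ℝ) (s u : List Bool) :
    bsum f s u = ∑ j ∈ Icc 1 s.length,
      if s.drop (s.length - j) <+: u then f (s.drop (s.length - j)) else 0 := by
  induction s with
  | nil => simp
  | cons b s ih =>
    rw [bsum_cons, ih, List.length_cons, sum_Icc_succ_top (by omega)]
    congr 1
    · refine sum_congr rfl (fun j hj => ?_)
      have hj' := (mem_Icc.1 hj).2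
      rw [show s.length + 1 - j = (s.length - j) + 1 by omega, List.drop_succ_cons]
    · simp

theorem bsum_self (f : List Bool → ℝ) (w : List Bool) :
    bsum f w w = ∑ j ∈ borders w, f (w.take j) := by
  rw [bsum_eq_sum, borders, sum_filter]
  refine sum_congr rfl (fun j hj => ?_)
  have hj' := (mem_Icc.1 hj).2
  have h1 : (w.drop (w.length - j)).length = j := by simp; omega
  have h2 : (w.take j).length = j := by simp; omega
  have key : w.drop (w.length - j) <+: w ↔ w.take j <:+ w := by
    rw [List.prefix_iff_eq_take, List.suffix_iff_eq_drop, h1, h2]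
    exact eq_comm
  by_cases h : w.take j <:+ w
  · rw [if_pos h, if_pos (key.2 h)]
    rw [List.suffix_iff_eq_drop, h2] at h
    rw [h]
  · rw [if_neg h, if_neg (fun h' => h (key.1 h'))]

theorem mem_borders_len {w : List Bool} {j : ℕ} (h : j ∈ borders w) : (w.take j).length = j := by
  have := (mem_Icc.1 (mem_filter.1 h).1).2
  simp; omega

theorem T_mul {z : ℝ} (hz : 0 < z) (m : ℕ) :
    (1 - z) * ∑ j ∈ Icc 1 m, (z ^ j)⁻¹ * ((m : ℝ) - j) = 1 + A z m - (z ^ m)⁻¹ - m := by
  induction m with
  | zero => simp [A]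
  | succ m ih =>
    have hA : ∑ j ∈ Icc 1 m, (z ^ j)⁻¹ = A z m := by
      unfold A
      rw [range_eq_Ico, sum_Ico_add' (fun j => (z ^ j)⁻¹) 0 m 1]
      rfl
    have e : ∑ j ∈ Icc 1 (m + 1), (z ^ j)⁻¹ * (((m + 1 : ℕ) : ℝ) - j)
        = ∑ j ∈ Icc 1 m, (z ^ j)⁻¹ * ((m : ℝ) - j) + A z m := by
      rw [sum_Icc_succ_top (by omega), sub_self, mul_zero, add_zero, ← hA, ← sum_add_distrib]
      refine sum_congr rfl (fun j _ => ?_)
      push_cast; ring
    rw [e, mul_add, ih, A_mul hz]
    have : A z (m + 1) = A z m + (z ^ (m + 1))⁻¹ := by unfold A; rw [sum_range_succ]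
    rw [this]; push_cast; ring

theorem T_lt {z : ℝ} (hz : 0 < z) (hz1 : z < 1) {m : ℕ} (h : 2 * z - 1 ≤ z ^ (m + 1)) :
    ∑ j ∈ Icc 1 m, (z ^ j)⁻¹ * ((m : ℝ) - j) < (z ^ (m + 1))⁻¹ := by
  rcases Nat.lt_or_ge m 2 with hm | hm
  · interval_cases m <;> simp <;> positivity
  · have h1 := T_mul hz m
    have h2 := A_le hz hz1 h
    have hm' : (2 : ℝ) ≤ m := by exact_mod_cast hm
    have e : (1 - z) * (z ^ (m + 1))⁻¹ = (z ^ (m + 1))⁻¹ - (z ^ m)⁻¹ := by
      have := hz.ne'
      field_simp
      ring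
    apply lt_of_mul_lt_mul_left (a := 1 - z) _ (by linarith)
    rw [h1, e]
    linarith

theorem B1_lt {z : ℝ} (hz : 0 < z) (hz1 : z < 1) {v w : List Bool} (hw : w ≠ [])
    (hb : borders v = borders w) (hc : v.count true < w.count true)
    (h : 2 * z - 1 ≤ z ^ w.length) : B1 z v v < B1 z w w := by
  obtain ⟨m, hm⟩ : ∃ m, w.length = m + 1 := ⟨w.length - 1, by
    have := List.length_pos_iff.2 hw; omega⟩
  rw [hm] at h
  have hT := T_lt hz hz1 h
  unfold B1
  rw [bsum_self, bsum_self, hb, ← sub_pos, ← sum_sub_distrib]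
  have h1 : ∀ j ∈ borders w, (z ^ j)⁻¹ * ((j : ℝ) - m) ≤
      (z ^ (w.take j).length)⁻¹ * ((w.take j).count true : ℝ)
        - (z ^ (v.take j).length)⁻¹ * ((v.take j).count true : ℝ) := by
    intro j hj
    rw [mem_borders_len hj, mem_borders_len (hb ▸ hj), ← mul_sub]
    apply mul_le_mul_of_nonneg_left _ (by positivity)
    obtain ⟨s, hs⟩ := (mem_filter.1 hj).2
    have l1 : s.length + j = m + 1 := by
      have := congrArg List.length hs
      rw [List.length_append, mem_borders_len hj, hm] at this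
      exact this
    have l2 : w.count true = s.count true + (w.take j).count true := by
      rw [← List.count_append, hs]
    have l3 : s.count true ≤ s.length := List.count_le_length
    have l4 : (v.take j).count true ≤ v.count true := (List.take_sublist _ _).count_le _
    have l5 : j + (v.take j).count true ≤ m + (w.take j).count true := by omega
    have l6 : (j : ℝ) + ((v.take j).count true : ℝ) ≤ m + ((w.take j).count true : ℝ) := by
      exact_mod_cast l5
    linarith
  refine lt_of_lt_of_le ?_ (sum_le_sum h1)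
  have h2 : ∑ j ∈ Icc 1 (m + 1), (z ^ j)⁻¹ * ((j : ℝ) - m)
      ≤ ∑ j ∈ borders w, (z ^ j)⁻¹ * ((j : ℝ) - m) := by
    apply sum_le_sum_of_subset_of_nonpos' (by rw [← hm]; exact filter_subset _ _)
    intro j hj hj'
    have hjm : j ≤ m := by
      have := (mem_Icc.1 hj).2
      by_contra hlt
      have e : j = w.length := by omega
      apply hj'
      rw [borders, mem_filter, hm]
      exact ⟨hj, by rw [e, List.take_length]⟩
    have : (j : ℝ) ≤ m := by exact_mod_cast hjm
    exact mul_nonpos_of_nonneg_of_nonpos (by positivity) (by linarith)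
  refine lt_of_lt_of_le ?_ h2
  rw [sum_Icc_succ_top (by omega)]
  have e : ∑ j ∈ Icc 1 m, (z ^ j)⁻¹ * ((j : ℝ) - m) = -∑ j ∈ Icc 1 m, (z ^ j)⁻¹ * ((m : ℝ) - j) := by
    rw [← sum_neg_distrib]
    exact sum_congr rfl (fun j _ => by ring)
  rw [e]
  push_cast
  linarith

theorem B0_eq_of_borders (z : ℝ) {v w : List Bool} (hb : borders v = borders w) :
    B0 z v v = B0 z w w := by
  unfold B0
  rw [bsum_self, bsum_self, hb]
  exact sum_congr rfl (fun j hj => by rw [mem_borders_len hj, mem_borders_len (hb ▸ hj)])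

theorem BL_eq_of_borders (z : ℝ) {v w : List Bool} (hb : borders v = borders w) :
    BL z v v = BL z w w := by
  unfold BL
  rw [bsum_self, bsum_self, hb]
  exact sum_congr rfl (fun j hj => by rw [mem_borders_len hj, mem_borders_len (hb ▸ hj)])

end Pool.Agent.Lib.MP_1f54e8_co
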