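import Pool.Agent.Lib.MP_1f54e8_co.Mart

set_option autoImplicit false

namespace Pool.Agent.Lib.MP_1f54e8_co

open Finset Filter Topology

/-- tilted letter weights -/
noncomputable def tilt (z r s : ℝ) : Bool → ℝ :=
  fun b => if b then z * Real.exp ((1 - r) * s) else z * Real.exp (-r * s)

theorem tilt_pos {z : ℝ} (hz : 0 < z) (r s : ℝ) (b : Bool) : 0 < tilt z r s b := by
  unfold tilt
  split_ifs <;> positivity

theorem wt_tilt (z r s : ℝ) (u : List Bool) :
    wt (tilt z r s) u = z ^ u.length * Real.exp (s * ((u.count true : ℝ) - r * u.length)) := by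
  induction u with
  | nil => simp
  | cons a u ih =>
    rw [wt_cons, ih]
    cases a
    · simp only [tilt, Bool.false_eq_true, if_false, List.length_cons, pow_succ]
      rw [List.count_cons_of_ne (by simp)]
      push_cast
      rw [show s * ((u.count true : ℝ) - r * (u.length + 1))
        = -r * s + s * ((u.count true : ℝ) - r * u.length) by ring, Real.exp_add]
      ring
    · simp only [tilt, if_true, List.length_cons, pow_succ, List.count_cons_self]
      push_cast
      rw [show s * ((u.count true : ℝ) + 1 - r * (u.length + 1))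
        = (1 - r) * s + s * ((u.count true : ℝ) - r * u.length) by ring, Real.exp_add]
      ring

theorem jensen_exp {ι : Type} (S : Finset ι) (a : ι → ℝ) (hS : 0 < S.card) :
    (S.card : ℝ) * Real.exp ((∑ i ∈ S, a i) / S.card) ≤ ∑ i ∈ S, Real.exp (a i) := by
  set m := (∑ i ∈ S, a i) / S.card with hm
  have hc : (0 : ℝ) < S.card := by exact_mod_cast hS
  have h1 : ∀ i ∈ S, Real.exp m * (1 + (a i - m)) ≤ Real.exp (a i) := by
    intro i _
    have := Real.add_one_le_exp (a i - m)
    calc Real.exp m * (1 + (a i - m)) ≤ Real.exp m * Real.exp (a i - m) :=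
          mul_le_mul_of_nonneg_left (by linarith) (Real.exp_pos m).le
      _ = Real.exp (a i) := by rw [← Real.exp_add]; congr 1; ring
  refine le_trans (le_of_eq ?_) (sum_le_sum h1)
  rw [← mul_sum, sum_add_distrib, sum_sub_distrib]
  simp only [sum_const, nsmul_eq_mul, mul_one]
  have : (S.card : ℝ) * m = ∑ i ∈ S, a i := by rw [hm]; field_simp
  rw [this]; ring

/-- One-sided deviation bound. -/
theorem freq_bound (S : ℕ → Finset (List Bool)) (hlen : ∀ n, ∀ u ∈ S n, u.length = n)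
    {z c : ℝ} (hz : 0 < z) (hc : 0 < c) (hlow : ∀ᶠ n in atTop, c ≤ ((S n).card : ℝ) * z ^ n)
    {r s C : ℝ} (hup : ∀ n, ∑ u ∈ S n, wt (tilt z r s) u ≤ C) {δ : ℝ} (hδ : 0 < δ) :
    ∀ᶠ n in atTop, s * (freq (S n) n - r) < δ := by
  have hlim : Tendsto (fun n : ℕ => Real.log (C / c) / (n : ℝ)) atTop (𝓝 0) :=
    tendsto_const_div_atTop_nhds_zero_nat _
  filter_upwards [hlow, hlim.eventually (gt_mem_nhds hδ), eventually_gt_atTop 0] with n h1 h2 hn
  have hzn : 0 < z ^ n := pow_pos hz n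
  have hcard : (0 : ℝ) < (S n).card := by
    by_contra h
    have : ((S n).card : ℝ) = 0 := le_antisymm (not_lt.1 h) (Nat.cast_nonneg _)
    rw [this] at h1; linarith
  have hcard' : 0 < (S n).card := by exact_mod_cast hcard
  have hnpos : (0 : ℝ) < n := by exact_mod_cast hn
  have hj := jensen_exp (S n) (fun u => s * ((u.count true : ℝ) - r * n)) hcard'
  have h3 : ∑ u ∈ S n, wt (tilt z r s) u
      = z ^ n * ∑ u ∈ S n, Real.exp (s * ((u.count true : ℝ) - r * n)) := by
    rw [mul_sum]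
    refine sum_congr rfl (fun u hu => ?_)
    rw [wt_tilt, hlen n u hu]
  have h4 : (∑ u ∈ S n, s * ((u.count true : ℝ) - r * n)) / (S n).card
      = n * (s * (freq (S n) n - r)) := by
    unfold freq
    rw [← mul_sum, sum_sub_distrib]
    simp only [sum_const, nsmul_eq_mul]
    field_simp
  rw [h4] at hj
  have h5 : c * Real.exp (n * (s * (freq (S n) n - r))) ≤ C := by
    calc c * Real.exp (n * (s * (freq (S n) n - r)))
        ≤ ((S n).card * z ^ n) * Real.exp (n * (s * (freq (S n) n - r))) :=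
          mul_le_mul_of_nonneg_right h1 (Real.exp_pos _).le
      _ = z ^ n * ((S n).card * Real.exp (n * (s * (freq (S n) n - r)))) := by ring
      _ ≤ z ^ n * ∑ u ∈ S n, Real.exp (s * ((u.count true : ℝ) - r * n)) :=
          mul_le_mul_of_nonneg_left hj hzn.le
      _ ≤ C := by rw [← h3]; exact hup n
  have h6 : Real.exp (n * (s * (freq (S n) n - r))) ≤ C / c := by
    rw [le_div_iff₀ hc]; linarith
  have h7 : n * (s * (freq (S n) n - r)) ≤ Real.log (C / c) :=
    (Real.le_log_iff_exp_le (lt_of_lt_of_le (Real.exp_pos _) h6)).2 h6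
  have h8 : s * (freq (S n) n - r) ≤ Real.log (C / c) / n := by
    rw [le_div_iff₀ hnpos]; linarith
  linarith

theorem freq_tendsto (S : ℕ → Finset (List Bool)) (hlen : ∀ n, ∀ u ∈ S n, u.length = n)
    {z c ρ : ℝ} (hz : 0 < z) (hc : 0 < c) (hlow : ∀ᶠ n in atTop, c ≤ ((S n).card : ℝ) * z ^ n)
    (hup : ∀ r, r ≠ ρ → ∃ s C : ℝ, 0 < s * (r - ρ) ∧ ∀ n, ∑ u ∈ S n, wt (tilt z r s) u ≤ C) :
    Tendsto (fun n : ℕ => freq (S n) n) atTop (𝓝 ρ) := by
  rw [tendsto_order]
  constructor
  · intro a ha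
    obtain ⟨s, C, hs, hC⟩ := hup ((a + ρ) / 2) (by linarith)
    have hs' : s < 0 := by
      by_contra h
      have := mul_nonneg (not_lt.1 h) (show 0 ≤ ρ - (a + ρ) / 2 by linarith)
      linarith
    filter_upwards [freq_bound S hlen hz hc hlow hC hs] with n hn
    by_contra h
    have := mul_nonneg (neg_nonneg.2 hs'.le) (sub_nonneg.2 (not_lt.1 h))
    nlinarith
  · intro a ha
    obtain ⟨s, C, hs, hC⟩ := hup ((a + ρ) / 2) (by linarith)
    have hs' : 0 < s := by
      by_contra h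
      have := mul_nonneg (neg_nonneg.2 (not_lt.1 h)) (show 0 ≤ (a + ρ) / 2 - ρ by linarith)
      linarith
    filter_upwards [freq_bound S hlen hz hc hlow hC hs] with n hn
    by_contra h
    have := mul_nonneg hs'.le (sub_nonneg.2 (not_lt.1 h))
    nlinarith

noncomputable def B0 (z : ℝ) (w u : List Bool) : ℝ := bsum (fun t => (z ^ t.length)⁻¹) w u
noncomputable def B1 (z : ℝ) (w u : List Bool) : ℝ :=
  bsum (fun t => (z ^ t.length)⁻¹ * (t.count true : ℝ)) w u
noncomputable def BL (z : ℝ) (w u : List Bool) : ℝ :=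
  bsum (fun t => (z ^ t.length)⁻¹ * (t.length : ℝ)) w u

theorem hfun_hasDerivAt (z r : ℝ) (w u : List Bool) :
    HasDerivAt (fun s => hfun (tilt z r s) w u)
      (-(z * (1 - 2 * r) * B0 z w u + (2 * z - 1) * (r * BL z w u - 1 * B1 z w u))) 0 := by
  have hG : HasDerivAt (fun s => G (tilt z r s) w u) (r * BL z w u - 1 * B1 z w u) 0 := by
    unfold G BL B1
    rw [← bsum_lin]
    apply bsum_hasDerivAt (fun s t => (wt (tilt z r s) t)⁻¹)
    intro t
    have : (fun s => (wt (tilt z r s) t)⁻¹)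
        = fun s => (z ^ t.length)⁻¹ * Real.exp (s * (r * t.length - (t.count true : ℝ))) := by
      funext s
      rw [wt_tilt, mul_inv, ← Real.exp_neg]
      congr 2; ring
    rw [this]
    have h1 : HasDerivAt (fun s : ℝ => s * (r * t.length - (t.count true : ℝ)))
        (r * t.length - (t.count true : ℝ)) 0 := by
      simpa using (hasDerivAt_id (0 : ℝ)).mul_const (r * t.length - (t.count true : ℝ))
    have h2 := (h1.exp).const_mul (z ^ t.length)⁻¹
    exact h2.congr_deriv (by simp; ring)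
  have hG0 : G (tilt z r 0) w u = B0 z w u := by
    unfold G B0
    congr 1
    funext t
    rw [wt_tilt]; simp
  have hσ : HasDerivAt (fun s => tilt z r s false + tilt z r s true - 1) (z * (1 - 2 * r)) 0 := by
    simp only [tilt, Bool.false_eq_true, if_false, if_true]
    have h1 : HasDerivAt (fun s : ℝ => -r * s) (-r) 0 := by
      simpa using (hasDerivAt_id (0 : ℝ)).const_mul (-r)
    have h2 : HasDerivAt (fun s : ℝ => (1 - r) * s) (1 - r) 0 := by
      simpa using (hasDerivAt_id (0 : ℝ)).const_mul (1 - r)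
    have h3 := ((h1.exp.const_mul z).add (h2.exp.const_mul z)).sub_const 1
    exact h3.congr_deriv (by simp; ring)
  have h := (hσ.mul hG).const_sub 1
  unfold hfun
  refine h.congr_deriv ?_
  rw [hG0]
  simp [tilt]
  ring_nf
  simp

theorem hfun_zero (z r : ℝ) (w u : List Bool) :
    hfun (tilt z r 0) w u = 1 - (2 * z - 1) * B0 z w u := by
  have hG0 : G (tilt z r 0) w u = B0 z w u := by
    unfold G B0
    congr 1
    funext t
    rw [wt_tilt]; simp
  unfold hfun
  rw [hG0]
  simp [tilt]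
  ring_nf
  simp

/-- the closed form of the frequency -/
noncomputable def rhoF (z : ℝ) (w : List Bool) : ℝ :=
  (z * B0 z w w ^ 2 - B1 z w w) / (2 * z * B0 z w w ^ 2 - BL z w w)

theorem sign_near {f : ℝ → ℝ} {d e : ℝ} (hf : HasDerivAt f d 0) (h0 : f 0 = 0) (hde : 0 < d * e)
    {P : ℝ → Prop} (hP : ∀ᶠ s in 𝓝 (0 : ℝ), P s) : ∃ s, 0 < s * e ∧ 0 ≤ f s ∧ P s := by
  have hslope := hasDerivAt_iff_tendsto_slope_zero.1 hf
  simp only [zero_add, h0, sub_zero, smul_eq_mul] at hslope
  have h1 : Tendsto (fun t => t⁻¹ * f t * e) (𝓝[≠] 0) (𝓝 (d * e)) := hslope.mul_const e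
  have h2 := h1.eventually (lt_mem_nhds hde)
  have h3 : ∀ᶠ s in 𝓝[≠] (0 : ℝ), P s := hP.filter_mono nhdsWithin_le_nhds
  have he : e ≠ 0 := by rintro rfl; simp at hde
  rcases lt_or_gt_of_ne he with he | he
  · have hle : 𝓝[<] (0 : ℝ) ≤ 𝓝[≠] 0 := nhdsWithin_mono _ (fun x hx => ne_of_lt hx)
    obtain ⟨s, ⟨hs1, hs2⟩, hs3⟩ :=
      (((h2.and h3).filter_mono hle).and self_mem_nhdsWithin).exists
    have hs3' : s < 0 := hs3
    refine ⟨s, mul_pos_of_neg_of_neg hs3' he, ?_, hs2⟩
    by_contra h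
    have h4 : 0 < s⁻¹ * f s := mul_pos_of_neg_of_neg (inv_lt_zero.2 hs3') (not_le.1 h)
    have := mul_neg_of_pos_of_neg h4 he
    linarith
  · have hle : 𝓝[>] (0 : ℝ) ≤ 𝓝[≠] 0 := nhdsWithin_mono _ (fun x hx => ne_of_gt hx)
    obtain ⟨s, ⟨hs1, hs2⟩, hs3⟩ :=
      (((h2.and h3).filter_mono hle).and self_mem_nhdsWithin).exists
    have hs3' : 0 < s := hs3
    refine ⟨s, mul_pos hs3' he, ?_, hs2⟩
    by_contra h
    have h4 : s⁻¹ * f s < 0 := mul_neg_of_pos_of_neg (inv_pos.2 hs3') (not_le.1 h)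
    have := mul_neg_of_neg_of_pos h4 he
    linarith

/-- Upper bounds for the tilted partition functions. -/
theorem Psum_tilt {z : ℝ} (hz : 0 < z) {w : List Bool} (hw : w ≠ [])
    (h1 : (2 * z - 1) * B0 z w w = 1)
    (h2 : ∀ u, ¬ w <:+: u → (2 * z - 1) * B0 z w u < 1)
    (h3 : 0 < 2 * z * B0 z w w ^ 2 - BL z w w) (hB : 0 < B0 z w w) (r : ℝ) (hr : r ≠ rhoF z w) :
    ∃ s C : ℝ, 0 < s * (r - rhoF z w) ∧ ∀ n, Psum (tilt z r s) w n ≤ C := by
  classical
  set F : Finset (List Bool) := (range (w.length + 1)).biUnion (fun n => Omega w n) with hF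
  have hP : ∀ᶠ s in 𝓝 (0 : ℝ), ∀ u ∈ F, 0 < hfun (tilt z r s) w u := by
    rw [eventually_all_finset]
    intro u hu
    have hu' : ¬ w <:+: u := by
      simp only [hF, mem_biUnion, mem_Omega] at hu
      obtain ⟨_, _, _, h⟩ := hu
      exact h
    have hc := (hfun_hasDerivAt z r w u).continuousAt
    have : 0 < hfun (tilt z r 0) w u := by rw [hfun_zero]; linarith [h2 u hu']
    exact hc.eventually (lt_mem_nhds this)
  have hd := hfun_hasDerivAt z r w w
  have h0 : hfun (tilt z r 0) w w = 0 := by rw [hfun_zero]; linarith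
  have hde : 0 < (-(z * (1 - 2 * r) * B0 z w w + (2 * z - 1) * (r * BL z w w - 1 * B1 z w w)))
      * (r - rhoF z w) := by
    have e1 : 2 * z - 1 = (B0 z w w)⁻¹ := eq_inv_of_mul_eq_one_left h1
    have e2 : -(z * (1 - 2 * r) * B0 z w w + (2 * z - 1) * (r * BL z w w - 1 * B1 z w w))
        = (B0 z w w)⁻¹ * (2 * z * B0 z w w ^ 2 - BL z w w) * (r - rhoF z w) := by
      have e3 : (2 * z * B0 z w w ^ 2 - BL z w w) * rhoF z w = z * B0 z w w ^ 2 - B1 z w w := by
        unfold rhoF; field_simp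
      have hB' := hB.ne'
      rw [e1, mul_assoc (B0 z w w)⁻¹, mul_sub (2 * z * B0 z w w ^ 2 - BL z w w), e3]
      field_simp; ring
    rw [e2, mul_assoc]
    exact mul_pos (mul_pos (inv_pos.2 hB) h3) (mul_self_pos.2 (sub_ne_zero.2 hr))
  obtain ⟨s, hs1, hs2, hs3⟩ := sign_near hd h0 hde hP
  have hne : F.Nonempty := ⟨[], by
    simp only [hF, mem_biUnion, mem_Omega, mem_range]
    exact ⟨0, by omega, rfl, by simpa using hw⟩⟩
  obtain ⟨u0, hu0, hmin⟩ := F.exists_min_image (fun u => hfun (tilt z r s) w u) hne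
  refine ⟨s, 1 / hfun (tilt z r s) w u0, hs1, fun n => ?_⟩
  refine Psum_upper (tilt_pos hz r s) hw hs2 (hs3 u0 hu0) (fun u hu => ?_) n
  have hmem : u.take w.length ∈ F := by
    simp only [hF, mem_biUnion, mem_Omega, mem_range]
    refine ⟨(u.take w.length).length, by simp, rfl, fun h => hu ?_⟩
    exact h.trans (List.take_prefix _ _).isInfix
  have := hmin _ hmem
  have e : hfun (tilt z r s) w (u.take w.length) = hfun (tilt z r s) w u := by
    unfold hfun G
    rw [bsum_take _ _ _ _ le_rfl]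
  rw [← e]; exact this

theorem Omega_lower {z : ℝ} (hz : 1 / 2 < z) {w : List Bool} (hw : w ≠ [])
    (h1 : (2 * z - 1) * B0 z w w = 1) (n : ℕ) : 1 ≤ ((Omega w n).card : ℝ) * z ^ n := by
  have hz0 : 0 < z := by linarith
  have h := Psum_lower (tilt_pos hz0 0 0) hw (by simp [tilt]; linarith)
    (by rw [hfun_zero]; linarith) n
  refine le_trans h (le_of_eq ?_)
  unfold Psum
  rw [sum_congr rfl (g := fun _ => z ^ n)]
  · simp
  · intro u hu
    rw [wt_tilt, (mem_Omega.1 hu).1]; simp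

end Pool.Agent.Lib.MP_1f54e8_co
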