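import Mathlib

set_option autoImplicit false

namespace Pool.Agent.Lib.MP_1f54e8_co

/-- All binary words of length `n`; `true` is the letter 1 and `false` is the letter 0. -/
def words (n : ℕ) : Finset (List Bool) :=
  Finset.univ.image (fun f : Fin n → Bool => List.ofFn f)

/-- The words of length `n` that do not contain `w` as a factor. -/
def Omega (w : List Bool) (n : ℕ) : Finset (List Bool) :=
  (words n).filter (fun u => ¬ w <:+: u)

open Classical in
/-- The words of length `n` that end with `w` and have no other occurrence of `w`. -/
noncomputable def Qset (w : List Bool) (n : ℕ) : Finset (List Bool) :=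
  (words n).filter (fun u => w <:+ u ∧ ∀ s t : List Bool, s ++ w ++ t = u → t = [])

/-- Total number of 1s in the words of `S`, divided by `n` times the number of words of `S`. -/
noncomputable def freq (S : Finset (List Bool)) (n : ℕ) : ℝ :=
  (∑ u ∈ S, (u.count true : ℝ)) / ((n : ℝ) * (S.card : ℝ))

/-- `HasRho w r`: the limit that defines `ρ^w` exists and equals `r`. -/
def HasRho (w : List Bool) (r : ℝ) : Prop :=
  Filter.Tendsto (fun n : ℕ => freq (Omega w n) n) Filter.atTop (nhds r)

/-- `HasQ w r`: the limit that defines `q^w` exists and equals `r`. -/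
def HasQ (w : List Bool) (r : ℝ) : Prop :=
  Filter.Tendsto (fun n : ℕ => freq (Qset w n) n) Filter.atTop (nhds r)

/-- The exceptional set `R`: the words `1^(k-1) 0`, `1 0^(k-1)`, `0^(k-1) 1`, `0 1^(k-1)`, `k ≥ 2`. -/
def InR (w : List Bool) : Prop :=
  ∃ k : ℕ, 2 ≤ k ∧
    (w = List.replicate (k - 1) true ++ [false] ∨ w = true :: List.replicate (k - 1) false ∨
     w = List.replicate (k - 1) false ++ [true] ∨ w = false :: List.replicate (k - 1) true)

/-- The border (self-overlap) set of `w`: the lengths `j`, `1 ≤ j ≤ |w|`, such that the first `j`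
letters of `w` are also its last `j` letters. -/
def borders (w : List Bool) : Finset ℕ :=
  (Finset.Icc 1 w.length).filter (fun j => w.take j <:+ w)

end Pool.Agent.Lib.MP_1f54e8_co
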