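import Pool.Agent.Lib.MP_1f54e8_co.Interval

set_option autoImplicit false

namespace Pool.Agent.Lib.MP_1f54e8_co

open Finset Filter Topology

/-- the first `n` letters of 001001001... -/
def per : ℕ → List Bool
  | 0 => []
  | 1 => [false]
  | 2 => [false, false]
  | n + 3 => false :: false :: true :: per n

theorem per_length : ∀ n, (per n).length = n
  | 0 => rfl
  | 1 => rfl
  | 2 => rfl
  | n + 3 => by simp [per, per_length n]

theorem per_count : ∀ n, (per n).count true = n / 3
  | 0 => rfl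
  | 1 => rfl
  | 2 => rfl
  | n + 3 => by
    simp only [per]
    rw [List.count_cons_of_ne (by simp), List.count_cons_of_ne (by simp), List.count_cons_self,
      per_count n]
    omega

theorem per_start : ∀ n, per n <+: per (n + 3)
  | 0 => by decide
  | 1 => by decide
  | 2 => by decide
  | n + 3 => by
    have := per_start n
    simp only [per] at this ⊢
    simpa using this

theorem per_count_ge : ∀ (n : ℕ) (t : List Bool), t <+: per n → t.length ≤ 3 * t.count true + 2
  | 0, t, h => by have := h.length_le; simp [per] at this; simp [this]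
  | 1, t, h => by have := h.length_le; simp [per] at this; omega
  | 2, t, h => by have := h.length_le; simp [per] at this; omega
  | n + 3, t, h => by
    match t, h with
    | [], _ => simp
    | [_], _ => simp
    | [_, _], _ => simp
    | a :: b :: c :: t, h =>
      simp only [per, List.cons_prefix_cons] at h
      obtain ⟨rfl, rfl, rfl, h⟩ := h
      have := per_count_ge n t h
      rw [List.count_cons_of_ne (by simp), List.count_cons_of_ne (by simp), List.count_cons_self]
      simp only [List.length_cons]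
      omega

theorem bsum_mono' {f g : List Bool → ℝ} (w u : List Bool)
    (hf : ∀ s, s <+: u → f s ≤ g s) : bsum f w u ≤ bsum g w u := by
  induction w with
  | nil => simp
  | cons b w ih =>
    rw [bsum_cons, bsum_cons]
    split_ifs with h
    · linarith [hf _ h]
    · linarith

theorem not_start (a : ℕ) (rest : List Bool) : ∀ j b : ℕ, j < b →
    ¬ (List.replicate j false ++ List.replicate (a + 1) true <+: List.replicate b false ++ rest)
  | 0, b + 1, _ => by simp [List.replicate_succ]
  | j + 1, b + 1, h => by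
    have := not_start a rest j b (by omega)
    simpa [List.replicate_succ (n := j), List.replicate_succ (n := b)] using this

theorem bsum_ones (f : List Bool → ℝ) (rest : List Bool) :
    ∀ a : ℕ, bsum f (List.replicate a true) (false :: rest) = 0
  | 0 => rfl
  | a + 1 => by
    rw [List.replicate_succ, bsum_cons, bsum_ones f rest a]
    simp

theorem bsum_zo (f : List Bool → ℝ) (a b : ℕ) (rest : List Bool) : ∀ j : ℕ, j ≤ b →
    bsum f (List.replicate j false ++ List.replicate (a + 1) true)
      (List.replicate (b + 1) false ++ rest) = 0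
  | 0, _ => by
    rw [List.replicate_succ (n := b), List.cons_append]
    simpa using bsum_ones f _ (a + 1)
  | j + 1, h => by
    have h1 := not_start a rest (j + 1) (b + 1) (by omega)
    rw [List.replicate_succ (n := j), List.cons_append] at h1 ⊢
    rw [bsum_cons, bsum_zo f a b rest j (by omega), if_neg h1, add_zero]

theorem bsum_zo_self (f : List Bool → ℝ) (a b : ℕ) :
    bsum f (List.replicate (b + 1) false ++ List.replicate (a + 1) true)
      (List.replicate (b + 1) false ++ List.replicate (a + 1) true)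
      = f (List.replicate (b + 1) false ++ List.replicate (a + 1) true) := by
  have h := bsum_zo f a b (List.replicate (a + 1) true) b le_rfl
  rw [List.replicate_succ (n := b), List.cons_append] at h ⊢
  rw [bsum_cons, h, if_pos (List.prefix_refl _), zero_add]

theorem small_eta : ∀ k : ℕ, 50 ≤ k → (k : ℝ) * (3 / 4) ^ k ≤ 1 / 100 := by
  intro k hk
  induction k, hk using Nat.le_induction with
  | base => norm_num
  | succ k hk ih =>
    have hk' : (50 : ℝ) ≤ k := by exact_mod_cast hk
    have hp : (0 : ℝ) < (3 / 4) ^ k := by positivity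
    push_cast
    rw [pow_succ]
    nlinarith

theorem exists_root_34 {w : List Bool} (hk : 3 ≤ w.length) :
    ∃ z : ℝ, 1 / 2 < z ∧ z ≤ 3 / 4 ∧ (2 * z - 1) * B0 z w w = 1 := by
  have hw : w ≠ [] := by rintro rfl; simp at hk
  have h2 : 1 ≤ (2 * (3 / 4 : ℝ) - 1) * B0 (3 / 4) w w := by
    have h := B0_self_ge (z := 3 / 4) (by norm_num) hw
    have h4 : ((3 / 4 : ℝ)) ^ w.length ≤ (3 / 4) ^ 3 :=
      pow_le_pow_of_le_one (by norm_num) (by norm_num) hk
    have h5 : (((3 / 4 : ℝ)) ^ 3)⁻¹ ≤ ((3 / 4) ^ w.length)⁻¹ := inv_anti₀ (by positivity) h4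
    norm_num at h5 h ⊢
    linarith
  exact exists_root (w := w) (a := 1 / 2) (b := 3 / 4) (by norm_num) (by norm_num) (by norm_num) h2

theorem eta_le {z : ℝ} (hz : 1 / 2 < z) (hz1 : z ≤ 3 / 4) {w : List Bool} (hk : 50 ≤ w.length)
    (h1 : (2 * z - 1) * B0 z w w = 1) : (w.length : ℝ) * (2 * z - 1) ≤ 1 / 100 := by
  have hw : w ≠ [] := by rintro rfl; simp at hk
  have h2 := root_le hz hw h1
  have h3 : z ^ w.length ≤ (3 / 4) ^ w.length := pow_le_pow_left₀ (by linarith) hz1 _
  refine le_trans ?_ (small_eta _ hk)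
  exact mul_le_mul_of_nonneg_left (h2.trans h3) (Nat.cast_nonneg _)

theorem rhoF_sub {z : ℝ} {w : List Bool} (hD : 0 < 2 * z * B0 z w w ^ 2 - BL z w w) :
    rhoF z w - 1 / 2 = (BL z w w - 2 * B1 z w w) / (2 * (2 * z * B0 z w w ^ 2 - BL z w w)) := by
  unfold rhoF
  generalize hE : 2 * z * B0 z w w ^ 2 - BL z w w = E at hD ⊢
  have := hD.ne'
  field_simp
  linear_combination hE

theorem BL_le (z : ℝ) (hz0 : 0 < z) (w : List Bool) : BL z w w ≤ w.length * B0 z w w := by
  have h := bsum_lin (fun t => (z ^ t.length)⁻¹) (fun _ => 0) (w.length : ℝ) 0 w w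
  unfold BL B0
  simp only [zero_mul, sub_zero] at h
  rw [← h]
  apply bsum_mono
  intro s hs
  have : (s.length : ℝ) ≤ w.length := by exact_mod_cast hs
  have h2 : 0 < (z ^ s.length)⁻¹ := by positivity
  nlinarith

theorem per_upper (k : ℕ) (hk : 50 ≤ k) (hR : ¬ InR (per k)) :
    ∃ r : ℝ, HasRho (per k) r ∧
      r - 1 / 2 ≤ ((k : ℝ) + 4) / 3 * (1 / 2) ^ k / (2 * (9 / 8) * (99 / 100) ^ 2) := by
  have hl := per_length k
  obtain ⟨z, hz, hz1, h1⟩ := exists_root_34 (w := per k) (by omega)
  have hz0 : 0 < z := by linarith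
  have hz1' : z < 1 := by linarith
  refine ⟨rhoF z (per k), hasRho_rhoF hz hz1' (by omega) hR h1, ?_⟩
  have hD := cond3 hz hz1' (w := per k) (by omega) h1
  have hη := eta_le hz hz1 (w := per k) (by omega) h1
  rw [hl] at hη
  rw [rhoF_sub hD]
  have hBL := BL_le z hz0 (per k)
  rw [hl] at hBL
  have hN : BL z (per k) (per k) - 2 * B1 z (per k) (per k)
      ≤ ((k : ℝ) + 4) / 3 * B0 z (per k) (per k) := by
    have e1 := bsum_lin (fun t => (z ^ t.length)⁻¹ * (t.length : ℝ))
      (fun t => (z ^ t.length)⁻¹ * (t.count true : ℝ)) 1 2 (per k) (per k)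
    have e2 := bsum_lin (fun t => (z ^ t.length)⁻¹) (fun _ => 0) (((k : ℝ) + 4) / 3) 0 (per k) (per k)
    unfold BL B1 B0
    simp only [zero_mul, sub_zero, one_mul] at e1 e2
    rw [← e1, ← e2]
    apply bsum_mono'
    intro s hs
    have h2 : (s.length : ℝ) ≤ 3 * (s.count true : ℝ) + 2 := by exact_mod_cast per_count_ge k s hs
    have h3 : (s.length : ℝ) ≤ k := by
      have := hs.length_le
      rw [hl] at this
      exact_mod_cast this
    have h4 : 0 < (z ^ s.length)⁻¹ := by positivity
    nlinarith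
  have hB : (9 / 8) * (z ^ k)⁻¹ ≤ B0 z (per k) (per k) := by
    obtain ⟨m, rfl⟩ : ∃ m, k = m + 6 := ⟨k - 6, by omega⟩
    have hs := per_start (m + 3)
    have hn := B0_nonneg hz0 (false :: true :: per m) (per (m + 6))
    have hlm := per_length m
    have e : per (m + 6) = false :: false :: true :: false :: false :: true :: per m := rfl
    have e' : per (m + 3) = false :: false :: true :: per m := rfl
    rw [e'] at hs
    unfold B0 at hn ⊢
    have hx : (z ^ (m + 3))⁻¹ = z ^ 3 * (z ^ (m + 6))⁻¹ := by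
      have := hz0.ne'
      field_simp
      ring
    have hz3 : (1 / 2 : ℝ) ^ 3 ≤ z ^ 3 := pow_le_pow_left₀ (by norm_num) hz.le 3
    have hp : 0 < (z ^ (m + 6))⁻¹ := by positivity
    conv_rhs => enter [2]; rw [e]
    rw [bsum_cons, bsum_cons, bsum_cons, bsum_cons, if_pos hs, ← e, if_pos (List.prefix_refl _)]
    simp only [List.length_cons, hlm, per_length]
    have p1 : 0 ≤ (if (true :: false :: false :: true :: per m) <+: per (m + 6)
      then (z ^ (m + 1 + 1 + 1 + 1))⁻¹ else 0) := by split_ifs <;> positivity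
    have p2 : 0 ≤ (if (false :: true :: false :: false :: true :: per m) <+: per (m + 6)
      then (z ^ (m + 1 + 1 + 1 + 1 + 1))⁻¹ else 0) := by split_ifs <;> positivity
    rw [show m + 1 + 1 + 1 = m + 3 by ring, hx]
    nlinarith
  set B := B0 z (per k) (per k) with hBdef
  have hzk : 0 < z ^ k := pow_pos hz0 k
  have hBpos : 0 < B := lt_of_lt_of_le (by positivity) hB
  have hD2 : (99 / 100) * B ^ 2 ≤ 2 * z * B ^ 2 - BL z (per k) (per k) := by
    have : (k : ℝ) * B = k * (2 * z - 1) * B ^ 2 := by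
      rw [pow_two, mul_assoc, ← mul_assoc (2 * z - 1), h1, one_mul]
    have h5 : 0 < B ^ 2 := by positivity
    nlinarith
  have hpow : (99 / 100) * z ^ k ≤ (1 / 2) ^ k := by
    have b1 : 1 + (k : ℝ) * (-(2 * z - 1)) ≤ (1 + -(2 * z - 1)) ^ k :=
      one_add_mul_le_pow (by linarith) k
    have b2 : (1 + -(2 * z - 1)) ^ k * z ^ k ≤ (1 / 2) ^ k := by
      rw [← mul_pow]
      apply pow_le_pow_left₀ (by nlinarith)
      nlinarith [sq_nonneg (2 * z - 1)]
    have b3 : (99 / 100 : ℝ) ≤ (1 + -(2 * z - 1)) ^ k := by linarith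
    exact (mul_le_mul_of_nonneg_right b3 hzk.le).trans b2
  have hM : (0 : ℝ) < ((k : ℝ) + 4) / 3 := by positivity
  calc (BL z (per k) (per k) - 2 * B1 z (per k) (per k)) / (2 * (2 * z * B ^ 2 - BL z (per k) (per k)))
      ≤ (((k : ℝ) + 4) / 3 * B) / (2 * (2 * z * B ^ 2 - BL z (per k) (per k))) :=
        div_le_div_of_nonneg_right hN (by linarith)
    _ ≤ (((k : ℝ) + 4) / 3 * B) / (2 * ((99 / 100) * B ^ 2)) :=
        div_le_div_of_nonneg_left (by positivity) (by positivity) (by linarith)
    _ = ((k : ℝ) + 4) / 3 / (2 * (99 / 100)) * B⁻¹ := by field_simp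
    _ ≤ ((k : ℝ) + 4) / 3 / (2 * (99 / 100)) * ((9 / 8) * (z ^ k)⁻¹)⁻¹ :=
        mul_le_mul_of_nonneg_left (inv_anti₀ (by positivity) hB) (by positivity)
    _ = ((k : ℝ) + 4) / 3 * ((99 / 100) * z ^ k) / (2 * (9 / 8) * (99 / 100) ^ 2) := by field_simp
    _ ≤ _ := by gcongr

theorem zo_lower (a b : ℕ) (hk : 50 ≤ a + b + 2) (hab : a ≤ b)
    (hR : ¬ InR (List.replicate (b + 1) false ++ List.replicate (a + 1) true)) :
    ∃ r : ℝ, HasRho (List.replicate (b + 1) false ++ List.replicate (a + 1) true) r ∧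
      ((b : ℝ) - a) * (1 / 2) ^ (a + b + 2) / (2 * (101 / 100)) ≤ r - 1 / 2 := by
  set w := List.replicate (b + 1) false ++ List.replicate (a + 1) true with hw
  have hl : w.length = a + b + 2 := by simp [hw]; omega
  have hc : w.count true = a + 1 := by simp [hw, List.count_replicate]
  obtain ⟨z, hz, hz1, h1⟩ := exists_root_34 (w := w) (by omega)
  have hz0 : 0 < z := by linarith
  have hz1' : z < 1 := by linarith
  refine ⟨rhoF z w, hasRho_rhoF hz hz1' (by omega) hR h1, ?_⟩
  have hD := cond3 hz hz1' (w := w) (by omega) h1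
  have hη := eta_le hz hz1 (w := w) (by omega) h1
  rw [rhoF_sub hD]
  have e0 : B0 z w w = (z ^ (a + b + 2))⁻¹ := by
    unfold B0; rw [hw, bsum_zo_self, ← hw, hl]
  have e1 : B1 z w w = (z ^ (a + b + 2))⁻¹ * ((a : ℝ) + 1) := by
    unfold B1; rw [hw, bsum_zo_self, ← hw, hl, hc]; push_cast; ring
  have eL : BL z w w = (z ^ (a + b + 2))⁻¹ * ((a : ℝ) + b + 2) := by
    unfold BL; rw [hw, bsum_zo_self, ← hw, hl]; push_cast; ring
  rw [e0, eL] at hD
  rw [e0, e1, eL]
  rw [hl] at hη
  have hzk : 0 < z ^ (a + b + 2) := pow_pos hz0 _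
  have hab' : (0 : ℝ) ≤ (b : ℝ) - a := by
    have : (a : ℝ) ≤ b := by exact_mod_cast hab
    linarith
  have hk' : (1 : ℝ) ≤ ((a + b + 2 : ℕ) : ℝ) := by exact_mod_cast (by omega : 1 ≤ a + b + 2)
  have h2z : 2 * z ≤ 101 / 100 := by nlinarith
  have hp : (1 / 2 : ℝ) ^ (a + b + 2) ≤ z ^ (a + b + 2) := pow_le_pow_left₀ (by norm_num) hz.le _
  set X := (z ^ (a + b + 2))⁻¹ with hX
  have hXpos : 0 < X := by positivity
  have hXz : z ^ (a + b + 2) = X⁻¹ := by rw [hX, inv_inv]
  calc ((b : ℝ) - a) * (1 / 2) ^ (a + b + 2) / (2 * (101 / 100))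
      ≤ ((b : ℝ) - a) * X⁻¹ / (2 * (101 / 100)) := by rw [← hXz]; gcongr
    _ = (((b : ℝ) - a) * X) / (2 * ((101 / 100) * X ^ 2)) := by field_simp
    _ ≤ (((b : ℝ) - a) * X) / (2 * (2 * z * X ^ 2 - X * ((a : ℝ) + b + 2))) := by
        apply div_le_div_of_nonneg_left (by positivity) (by linarith)
        have h5 : 0 < X ^ 2 := by positivity
        have h6 : 0 ≤ X * ((a : ℝ) + b + 2) := by positivity
        nlinarith
    _ = _ := by congr 1; ring

theorem InR_count {w : List Bool} (h : InR w) :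
    w.count true ≤ 1 ∨ w.length ≤ w.count true + 1 := by
  obtain ⟨k, hk, rfl | rfl | rfl | rfl⟩ := h <;> simp [List.count_replicate]

end Pool.Agent.Lib.MP_1f54e8_co
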