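import Pool.Agent.Lib.MP_1f54e8_co.Chernoff

set_option autoImplicit false

namespace Pool.Agent.Lib.MP_1f54e8_co

open Finset Filter Topology

/-- `A z m` is the sum of `z^(-j)` over `1 ≤ j ≤ m`. -/
noncomputable def A (z : ℝ) (m : ℕ) : ℝ := ∑ j ∈ range m, (z ^ (j + 1))⁻¹

theorem A_mul {z : ℝ} (hz : 0 < z) (m : ℕ) : (1 - z) * A z m = (z ^ m)⁻¹ - 1 := by
  induction m with
  | zero => simp [A]
  | succ m ih =>
    unfold A at ih ⊢
    rw [sum_range_succ, mul_add, ih]
    have := hz.ne'
    field_simp
    ring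

theorem A_ge {z : ℝ} (hz : 0 < z) (hz1 : z < 1) (m : ℕ) : (m : ℝ) * z⁻¹ ≤ A z m := by
  unfold A
  have : ∀ j ∈ range m, z⁻¹ ≤ (z ^ (j + 1))⁻¹ := by
    intro j _
    apply inv_anti₀ (pow_pos hz _)
    rw [pow_succ]
    exact mul_le_of_le_one_left hz.le (pow_le_one₀ hz.le hz1.le)
  simpa using sum_le_sum this

theorem B0_le_A {z : ℝ} (hz : 0 < z) (w u : List Bool) : B0 z w u ≤ A z w.length := by
  induction w with
  | nil => simp [B0, A]
  | cons b w ih =>
    unfold B0 A at ih ⊢
    rw [bsum_cons, List.length_cons, sum_range_succ]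
    have : 0 < (z ^ (w.length + 1))⁻¹ := by positivity
    split_ifs
    · simpa using ih
    · linarith

theorem B0_lt_or {z : ℝ} (hz : 0 < z) (w u : List Bool) :
    B0 z w u < A z w.length ∨ ∃ c, w = List.replicate w.length c ∧ w <+: u := by
  induction w with
  | nil => right; exact ⟨true, rfl, List.nil_prefix⟩
  | cons b w ih =>
    have hle := B0_le_A hz w u
    have hpos : 0 < (z ^ (w.length + 1))⁻¹ := by positivity
    by_cases hb : (b :: w) <+: u
    · rcases ih with ih | ⟨c, hc, hu⟩
      · left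
        unfold B0 A at ih ⊢
        rw [bsum_cons, List.length_cons, sum_range_succ, if_pos hb]
        simpa using ih
      · right
        refine ⟨b, ?_, hb⟩
        cases w with
        | nil => rfl
        | cons a w =>
          have hac : a = c := by
            rw [List.length_cons, List.replicate_succ] at hc
            exact (List.cons.inj hc).1
          have hab : b = a := by
            obtain ⟨t1, h1⟩ := hb
            obtain ⟨t2, h2⟩ := hu
            rw [← h2] at h1
            exact (List.cons.inj h1).1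
          subst hac
          subst hab
          rw [List.length_cons, List.replicate_succ, ← hc]
    · left
      unfold B0 A at hle ⊢
      rw [bsum_cons, List.length_cons, sum_range_succ, if_neg hb]
      linarith

theorem B0_nonneg {z : ℝ} (hz : 0 < z) (w u : List Bool) : 0 ≤ B0 z w u :=
  bsum_nonneg (fun s => by positivity) w u

theorem B0_self {z : ℝ} (b : Bool) (w : List Bool) :
    B0 z (b :: w) (b :: w) = B0 z w (b :: w) + (z ^ (w.length + 1))⁻¹ := by
  unfold B0
  rw [bsum_cons, if_pos (List.prefix_refl _)]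
  rfl

theorem B0_self_ge {z : ℝ} (hz : 0 < z) {w : List Bool} (hw : w ≠ []) :
    (z ^ w.length)⁻¹ ≤ B0 z w w := by
  cases w with
  | nil => exact absurd rfl hw
  | cons b w =>
    rw [B0_self, List.length_cons]
    linarith [B0_nonneg hz w (b :: w)]

theorem root_le {z : ℝ} (hz : 1 / 2 < z) {w : List Bool} (hw : w ≠ [])
    (h1 : (2 * z - 1) * B0 z w w = 1) : 2 * z - 1 ≤ z ^ w.length := by
  have hz0 : 0 < z := by linarith
  have h := B0_self_ge hz0 hw
  have hp : 0 < z ^ w.length := pow_pos hz0 _
  have h2 : (2 * z - 1) * (z ^ w.length)⁻¹ ≤ 1 := by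
    exact (mul_le_mul_of_nonneg_left h (by linarith)).trans h1.le
  rwa [← div_eq_mul_inv, div_le_one hp] at h2

theorem A_le {z : ℝ} (hz : 0 < z) (hz1 : z < 1) {m : ℕ} (h : 2 * z - 1 ≤ z ^ (m + 1)) :
    A z m ≤ (z ^ (m + 1))⁻¹ := by
  have h1 := A_mul hz m
  have hp : 0 < z ^ (m + 1) := pow_pos hz _
  have h2 : (z ^ m)⁻¹ - 1 ≤ (1 - z) * (z ^ (m + 1))⁻¹ := by
    have e : (z ^ m)⁻¹ - 1 = (z - z ^ (m + 1)) * (z ^ (m + 1))⁻¹ := by
      have := hz.ne'
      field_simp
      ring
    rw [e]
    exact mul_le_mul_of_nonneg_right (by linarith) (inv_pos.2 hp).le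
  rw [← h1] at h2
  exact le_of_mul_le_mul_left h2 (by linarith)

theorem cond2 {z : ℝ} (hz : 1 / 2 < z) (hz1 : z < 1) {w : List Bool} (hk : 2 ≤ w.length)
    (hR : ¬ InR w) (h1 : (2 * z - 1) * B0 z w w = 1) (u : List Bool) (hu : ¬ w <:+: u) :
    (2 * z - 1) * B0 z w u < 1 := by
  have hz0 : 0 < z := by linarith
  have hw : w ≠ [] := by rintro rfl; simp at hk
  have hr := root_le hz hw h1
  refine lt_of_lt_of_eq (mul_lt_mul_of_pos_left ?_ (by linarith)) h1
  cases w with
  | nil => exact absurd rfl hw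
  | cons b w =>
    have hnp : ¬ (b :: w) <+: u := fun h => hu h.isInfix
    have e : B0 z (b :: w) u = B0 z w u := by
      unfold B0; rw [bsum_cons, if_neg hnp, add_zero]
    rw [e, B0_self]
    have hA := A_le hz0 hz1 (m := w.length) hr
    have hn := B0_nonneg hz0 w (b :: w)
    rcases B0_lt_or hz0 w u with h | ⟨c, hc, _⟩
    · linarith
    · have hle := B0_le_A hz0 w u
      have hbc : b = c := by
        by_contra hne
        apply hR
        refine ⟨w.length + 1, by simpa using hk, ?_⟩
        cases b <;> cases c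
        · exact absurd rfl hne
        · right; right; right; simpa using hc
        · right; left; simpa using hc
        · exact absurd rfl hne
      have hpos : 0 < B0 z w (b :: w) := by
        cases w with
        | nil => simp at hk
        | cons a w =>
          have hpre : (a :: w) <+: b :: a :: w := by
            rw [hbc, hc, ← List.replicate_succ, List.replicate_succ']
            exact List.prefix_append _ _
          have h3 := B0_nonneg hz0 w (b :: a :: w)
          unfold B0 at h3 ⊢
          rw [bsum_cons, if_pos hpre]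
          have : 0 < (z ^ (a :: w).length)⁻¹ := by positivity
          linarith
      linarith

theorem cond3 {z : ℝ} (hz : 1 / 2 < z) (hz1 : z < 1) {w : List Bool} (hk : 2 ≤ w.length)
    (h1 : (2 * z - 1) * B0 z w w = 1) : 0 < 2 * z * B0 z w w ^ 2 - BL z w w := by
  have hz0 : 0 < z := by linarith
  have hw : w ≠ [] := by rintro rfl; simp at hk
  have hr := root_le hz hw h1
  have hB : 0 < B0 z w w := lt_of_lt_of_le (by positivity) (B0_self_ge hz0 hw)
  have hBL : BL z w w ≤ w.length * B0 z w w := by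
    have h := bsum_lin (fun t => (z ^ t.length)⁻¹) (fun _ => 0) (w.length : ℝ) 0 w w
    unfold BL B0
    simp only [zero_mul, sub_zero] at h
    rw [← h]
    apply bsum_mono
    intro s hs
    have : (s.length : ℝ) ≤ w.length := by exact_mod_cast hs
    have h2 : 0 < (z ^ s.length)⁻¹ := by positivity
    nlinarith
  have key : (w.length : ℝ) * (2 * z - 1) < 2 * z := by
    obtain ⟨m, hm⟩ : ∃ m, w.length = m + 1 := ⟨w.length - 1, by omega⟩
    rw [hm] at hr hk ⊢
    have hA := (A_ge hz0 hz1 m).trans (A_le hz0 hz1 hr)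
    have hp : 0 < z ^ (m + 1) := pow_pos hz0 _
    have h3 : (m : ℝ) * z ^ (m + 1) ≤ z := by
      have := mul_le_mul_of_nonneg_right hA (mul_pos hz0 hp).le
      have e1 : (m : ℝ) * z⁻¹ * (z * z ^ (m + 1)) = m * z ^ (m + 1) := by
        have := hz0.ne'
        field_simp
      have e2 : (z ^ (m + 1))⁻¹ * (z * z ^ (m + 1)) = z := by
        have := hz0.ne'
        field_simp
      rwa [e1, e2] at this
    rcases Nat.lt_or_ge m 2 with hm2 | hm2
    · have : m = 1 := by omega
      subst this
      push_cast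
      linarith
    · have hm2' : (2 : ℝ) ≤ m := by exact_mod_cast hm2
      push_cast
      nlinarith
  have h4 : (w.length : ℝ) < 2 * z * B0 z w w := by
    have := mul_lt_mul_of_pos_right key hB
    rw [mul_assoc, h1] at this
    linarith
  nlinarith

/-- The limit `ρ^w` exists and has a closed form. -/
theorem hasRho_rhoF {z : ℝ} (hz : 1 / 2 < z) (hz1 : z < 1) {w : List Bool} (hk : 2 ≤ w.length)
    (hR : ¬ InR w) (h1 : (2 * z - 1) * B0 z w w = 1) : HasRho w (rhoF z w) := by
  have hz0 : 0 < z := by linarith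
  have hw : w ≠ [] := by rintro rfl; simp at hk
  have hB : 0 < B0 z w w := lt_of_lt_of_le (by positivity) (B0_self_ge hz0 hw)
  refine freq_tendsto (fun n => Omega w n) (fun n u hu => (mem_Omega.1 hu).1) hz0 one_pos
    (Eventually.of_forall (Omega_lower hz hw h1)) (fun r hr => ?_)
  exact Psum_tilt hz0 hw h1 (cond2 hz hz1 hk hR h1) (cond3 hz hz1 hk h1) hB r hr

theorem B0_continuousOn (w u : List Bool) : ContinuousOn (fun z => B0 z w u) (Set.Ioi 0) := by
  induction w with
  | nil => simpa [B0] using continuousOn_const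
  | cons b w ih =>
    unfold B0 at ih ⊢
    simp only [bsum_cons]
    refine ih.add ?_
    split_ifs
    · exact (continuousOn_id.pow _).inv₀ (fun x hx => (pow_pos hx _).ne')
    · exact continuousOn_const

theorem exists_root {w : List Bool} {a b : ℝ} (ha : 0 < a) (hab : a ≤ b)
    (h1 : (2 * a - 1) * B0 a w w < 1) (h2 : 1 ≤ (2 * b - 1) * B0 b w w) :
    ∃ z, a < z ∧ z ≤ b ∧ (2 * z - 1) * B0 z w w = 1 := by
  have hc : ContinuousOn (fun z => (2 * z - 1) * B0 z w w) (Set.Icc a b) := by
    refine ContinuousOn.mul (by fun_prop) ((B0_continuousOn w w).mono ?_)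
    intro x hx
    exact lt_of_lt_of_le ha hx.1
  obtain ⟨z, hz, e⟩ := intermediate_value_Ioc hab hc ⟨h1, h2⟩
  exact ⟨z, hz.1, hz.2, e⟩

theorem exists_root_gen {w : List Bool} (hk : 2 ≤ w.length) (hR : ¬ InR w) :
    ∃ z : ℝ, 1 / 2 < z ∧ z < 1 ∧ (2 * z - 1) * B0 z w w = 1 := by
  have hw : w ≠ [] := by rintro rfl; simp at hk
  have h2 : 1 ≤ (2 * (3 / 4 : ℝ) - 1) * B0 (3 / 4) w w := by
    rcases Nat.lt_or_ge w.length 3 with h3 | h3
    · match w, hk, h3, hR with
      | [true, true], _, _, _ => norm_num [B0, bsum]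
      | [false, false], _, _, _ => norm_num [B0, bsum]
      | [true, false], _, _, hR => exact absurd ⟨2, le_rfl, by simp⟩ hR
      | [false, true], _, _, hR => exact absurd ⟨2, le_rfl, by simp⟩ hR
    · have h := B0_self_ge (z := 3 / 4) (by norm_num) hw
      have h4 : ((3 / 4 : ℝ)) ^ w.length ≤ (3 / 4) ^ 3 :=
        pow_le_pow_of_le_one (by norm_num) (by norm_num) h3
      have h5 : (((3 / 4 : ℝ)) ^ 3)⁻¹ ≤ ((3 / 4) ^ w.length)⁻¹ := inv_anti₀ (by positivity) h4
      norm_num at h5 h ⊢
      linarith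
  obtain ⟨z, h3, h4, h5⟩ := exists_root (w := w) (a := 1 / 2) (b := 3 / 4) (by norm_num)
    (by norm_num) (by norm_num) h2
  exact ⟨z, h3, by linarith, h5⟩

end Pool.Agent.Lib.MP_1f54e8_co
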