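import Pool.Agent.Lib.MP_1f54e8_co.Formula

set_option autoImplicit false

namespace Pool.Agent.Lib.MP_1f54e8_co

open Finset Filter Topology

def B0q (z : ℚ) (w : List Bool) : ℚ := bsum (fun t => (z ^ t.length)⁻¹) w w
def B1q (z : ℚ) (w : List Bool) : ℚ := bsum (fun t => (z ^ t.length)⁻¹ * (t.count true : ℚ)) w w
def BLq (z : ℚ) (w : List Bool) : ℚ := bsum (fun t => (z ^ t.length)⁻¹ * (t.length : ℚ)) w w

theorem bsum_cast (f : List Bool → ℚ) (w u : List Bool) :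
    ((bsum f w u : ℚ) : ℝ) = bsum (fun t => (f t : ℝ)) w u := by
  induction w with
  | nil => simp
  | cons b w ih =>
    rw [bsum_cons, bsum_cons, Rat.cast_add, ih]
    split_ifs <;> simp

theorem B0q_cast (z : ℚ) (w : List Bool) : (B0q z w : ℝ) = B0 z w w := by
  unfold B0q B0; rw [bsum_cast]; simp

theorem B1q_cast (z : ℚ) (w : List Bool) : (B1q z w : ℝ) = B1 z w w := by
  unfold B1q B1; rw [bsum_cast]; simp

theorem BLq_cast (z : ℚ) (w : List Bool) : (BLq z w : ℝ) = BL z w w := by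
  unfold BLq BL; rw [bsum_cast]; simp

theorem inv_pow_anti {a b : ℝ} (ha : 0 < a) (hab : a ≤ b) (n : ℕ) : (b ^ n)⁻¹ ≤ (a ^ n)⁻¹ :=
  inv_anti₀ (pow_pos ha n) (pow_le_pow_left₀ ha.le hab n)

theorem B0_anti {a b : ℝ} (ha : 0 < a) (hab : a ≤ b) (w u : List Bool) : B0 b w u ≤ B0 a w u :=
  bsum_mono w u (fun _ _ => inv_pow_anti ha hab _)

theorem B1_anti {a b : ℝ} (ha : 0 < a) (hab : a ≤ b) (w u : List Bool) : B1 b w u ≤ B1 a w u :=
  bsum_mono w u (fun _ _ => mul_le_mul_of_nonneg_right (inv_pow_anti ha hab _) (Nat.cast_nonneg _))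

theorem BL_anti {a b : ℝ} (ha : 0 < a) (hab : a ≤ b) (w u : List Bool) : BL b w u ≤ BL a w u :=
  bsum_mono w u (fun _ _ => mul_le_mul_of_nonneg_right (inv_pow_anti ha hab _) (Nat.cast_nonneg _))

/-- certificate for an upper bound `ρ^w < 1/2 + θ` -/
def certUp (w : List Bool) (a b θ : ℚ) : Prop :=
  1 / 2 ≤ a ∧ a ≤ b ∧ b < 1 ∧ 0 ≤ θ ∧ (2 * a - 1) * B0q a w < 1 ∧ 1 ≤ (2 * b - 1) * B0q b w ∧
    BLq a w - 2 * B1q b w < 2 * θ * (2 * a * B0q b w ^ 2 - BLq a w)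

/-- certificate for a lower bound `1/2 + θ < ρ^w` -/
def certLow (w : List Bool) (a b θ : ℚ) : Prop :=
  1 / 2 ≤ a ∧ a ≤ b ∧ b < 1 ∧ 0 ≤ θ ∧ (2 * a - 1) * B0q a w < 1 ∧ 1 ≤ (2 * b - 1) * B0q b w ∧
    2 * θ * (2 * b * B0q a w ^ 2 - BLq b w) < BLq b w - 2 * B1q a w

instance (w : List Bool) (a b θ : ℚ) : Decidable (certUp w a b θ) := by
  unfold certUp; infer_instance

instance (w : List Bool) (a b θ : ℚ) : Decidable (certLow w a b θ) := by
  unfold certLow; infer_instance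

theorem of_certUp {w : List Bool} (hk : 2 ≤ w.length) (hR : ¬ InR w) {a b θ : ℚ}
    (h : certUp w a b θ) : ∃ r : ℝ, HasRho w r ∧ r < 1 / 2 + θ := by
  obtain ⟨h1, h2, h3, h4, h5, h6, h7⟩ := h
  have h1' : (1 / 2 : ℝ) ≤ a := by simpa using (Rat.cast_le (K := ℝ)).2 h1
  have h2' : (a : ℝ) ≤ b := by exact_mod_cast h2
  have h3' : (b : ℝ) < 1 := by exact_mod_cast h3
  have h4' : (0 : ℝ) ≤ θ := by exact_mod_cast h4
  have h5' : (2 * (a : ℝ) - 1) * B0 a w w < 1 := by rw [← B0q_cast]; exact_mod_cast h5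
  have h6' : 1 ≤ (2 * (b : ℝ) - 1) * B0 b w w := by rw [← B0q_cast]; exact_mod_cast h6
  have h7' : BL a w w - 2 * B1 b w w < 2 * θ * (2 * a * B0 b w w ^ 2 - BL a w w) := by
    rw [← B0q_cast, ← B1q_cast, ← BLq_cast]; exact_mod_cast h7
  have ha : (0 : ℝ) < a := by linarith
  obtain ⟨z, hz1, hz2, hz3⟩ := exists_root (w := w) ha h2' h5' h6'
  have hz : 1 / 2 < z := by linarith
  have hz' : z < 1 := by linarith
  have hz0 : 0 < z := by linarith
  refine ⟨rhoF z w, hasRho_rhoF hz hz' hk hR hz3, ?_⟩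
  have hD := cond3 hz hz' hk hz3
  unfold rhoF
  rw [div_lt_iff₀ hD]
  have e1 := BL_anti ha hz1.le w w
  have e2 := B1_anti hz0 hz2 w w
  have e3 := B0_anti hz0 hz2 w w
  have e4 := B0_nonneg (z := b) (by linarith) w w
  have e5 : a * B0 b w w ^ 2 ≤ z * B0 z w w ^ 2 :=
    mul_le_mul hz1.le (pow_le_pow_left₀ e4 e3 2) (by positivity) hz0.le
  have e6 : θ * (2 * a * B0 b w w ^ 2 - BL a w w) ≤ θ * (2 * z * B0 z w w ^ 2 - BL z w w) :=
    mul_le_mul_of_nonneg_left (by linarith) h4'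
  nlinarith

theorem of_certLow {w : List Bool} (hk : 2 ≤ w.length) (hR : ¬ InR w) {a b θ : ℚ}
    (h : certLow w a b θ) : ∃ r : ℝ, HasRho w r ∧ 1 / 2 + θ < r := by
  obtain ⟨h1, h2, h3, h4, h5, h6, h7⟩ := h
  have h1' : (1 / 2 : ℝ) ≤ a := by simpa using (Rat.cast_le (K := ℝ)).2 h1
  have h2' : (a : ℝ) ≤ b := by exact_mod_cast h2
  have h3' : (b : ℝ) < 1 := by exact_mod_cast h3
  have h4' : (0 : ℝ) ≤ θ := by exact_mod_cast h4
  have h5' : (2 * (a : ℝ) - 1) * B0 a w w < 1 := by rw [← B0q_cast]; exact_mod_cast h5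
  have h6' : 1 ≤ (2 * (b : ℝ) - 1) * B0 b w w := by rw [← B0q_cast]; exact_mod_cast h6
  have h7' : 2 * θ * (2 * b * B0 a w w ^ 2 - BL b w w) < BL b w w - 2 * B1 a w w := by
    rw [← B0q_cast, ← B1q_cast, ← BLq_cast]; exact_mod_cast h7
  have ha : (0 : ℝ) < a := by linarith
  obtain ⟨z, hz1, hz2, hz3⟩ := exists_root (w := w) ha h2' h5' h6'
  have hz : 1 / 2 < z := by linarith
  have hz' : z < 1 := by linarith
  have hz0 : 0 < z := by linarith
  refine ⟨rhoF z w, hasRho_rhoF hz hz' hk hR hz3, ?_⟩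
  have hD := cond3 hz hz' hk hz3
  unfold rhoF
  rw [lt_div_iff₀ hD]
  have e1 := BL_anti hz0 hz2 w w
  have e2 := B1_anti ha hz1.le w w
  have e3 := B0_anti ha hz1.le w w
  have e4 := B0_nonneg hz0 w w
  have e5 : z * B0 z w w ^ 2 ≤ b * B0 a w w ^ 2 :=
    mul_le_mul hz2 (pow_le_pow_left₀ e4 e3 2) (by positivity) (by linarith)
  have e6 : θ * (2 * z * B0 z w w ^ 2 - BL z w w) ≤ θ * (2 * b * B0 a w w ^ 2 - BL b w w) :=
    mul_le_mul_of_nonneg_left (by linarith) h4'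
  nlinarith

theorem not_InR_of {w : List Bool}
    (h : ¬ (w = List.replicate (w.length - 1) true ++ [false] ∨
      w = true :: List.replicate (w.length - 1) false ∨
      w = List.replicate (w.length - 1) false ++ [true] ∨
      w = false :: List.replicate (w.length - 1) true)) : ¬ InR w := by
  rintro ⟨k, hk, hw⟩
  have : w.length = k := by
    rcases hw with rfl | rfl | rfl | rfl <;> simp <;> omega
  rw [← this] at hw
  exact h hw

end Pool.Agent.Lib.MP_1f54e8_co
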