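import Pool.Agent.Lib.MP_1f54e8_co.Defs

set_option autoImplicit false

namespace Pool.Agent.Lib.MP_1f54e8_co

open Finset Filter Topology

theorem mem_words {n : ℕ} {u : List Bool} : u ∈ words n ↔ u.length = n := by
  unfold words
  simp only [mem_image, mem_univ, true_and]
  constructor
  · rintro ⟨f, rfl⟩; simp
  · rintro rfl; exact ⟨u.get, List.ofFn_get u⟩

theorem mem_Omega {w u : List Bool} {n : ℕ} : u ∈ Omega w n ↔ u.length = n ∧ ¬ w <:+: u := by
  unfold Omega
  rw [mem_filter, mem_words]

theorem words_succ (n : ℕ) :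
    words (n + 1) = (words n).image (fun u => false :: u) ∪ (words n).image (fun u => true :: u) := by
  ext u
  simp only [mem_words, mem_union, mem_image]
  constructor
  · intro h
    match u, h with
    | false :: t, h => left; exact ⟨t, by simpa using h, rfl⟩
    | true :: t, h => right; exact ⟨t, by simpa using h, rfl⟩
  · rintro (⟨t, ht, rfl⟩ | ⟨t, ht, rfl⟩) <;> simp [ht]

theorem sum_words_succ (F : List Bool → ℝ) (n : ℕ) :
    ∑ u ∈ words (n + 1), F u = ∑ u ∈ words n, (F (false :: u) + F (true :: u)) := by
  rw [words_succ, sum_union, sum_image, sum_image, ← sum_add_distrib]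
  · intro a _ b _ h; simpa using h
  · intro a _ b _ h; simpa using h
  · rw [disjoint_left]
    intro u h1 h2
    simp only [mem_image] at h1 h2
    obtain ⟨a, _, rfl⟩ := h1
    obtain ⟨b, _, h⟩ := h2
    simp at h

/-- product of the letter weights -/
def wt (p : Bool → ℝ) (u : List Bool) : ℝ := (u.map p).prod

@[simp] theorem wt_nil (p : Bool → ℝ) : wt p [] = 1 := by simp [wt]

@[simp] theorem wt_cons (p : Bool → ℝ) (a : Bool) (u : List Bool) :
    wt p (a :: u) = p a * wt p u := by simp [wt]

theorem wt_append (p : Bool → ℝ) (u v : List Bool) : wt p (u ++ v) = wt p u * wt p v := by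
  simp [wt]

theorem wt_pos {p : Bool → ℝ} (hp : ∀ b, 0 < p b) (u : List Bool) : 0 < wt p u := by
  induction u with
  | nil => simp
  | cons a u ih => rw [wt_cons]; exact mul_pos (hp a) ih

/-- sum of `f s` over the nonempty final segments `s` of `w` that are initial segments of `u` -/
def bsum {α : Type} [AddCommMonoid α] (f : List Bool → α) : List Bool → List Bool → α
  | [], _ => 0
  | b :: w, u => bsum f w u + if (b :: w) <+: u then f (b :: w) else 0

@[simp] theorem bsum_nil {α : Type} [AddCommMonoid α] (f : List Bool → α) (u : List Bool) :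
    bsum f [] u = 0 := rfl

theorem bsum_cons {α : Type} [AddCommMonoid α] (f : List Bool → α) (b : Bool) (w u : List Bool) :
    bsum f (b :: w) u = bsum f w u + if (b :: w) <+: u then f (b :: w) else 0 := rfl

theorem bsum_nil_right {α : Type} [AddCommMonoid α] (f : List Bool → α) (w : List Bool) :
    bsum f w [] = 0 := by
  induction w with
  | nil => rfl
  | cons b w ih => simp [bsum_cons, ih]

theorem bsum_of_le {α : Type} [AddCommMonoid α] (f : List Bool → α) (w t u : List Bool)
    (htu : t <+: u) (hl : w.length ≤ t.length) : bsum f w u = bsum f w t := by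
  induction w with
  | nil => rfl
  | cons b w ih =>
    have hl' : w.length ≤ t.length := by simp at hl; omega
    rw [bsum_cons, bsum_cons, ih hl']
    have : (b :: w) <+: u ↔ (b :: w) <+: t :=
      ⟨fun h => List.prefix_of_prefix_length_le h htu hl, fun h => h.trans htu⟩
    simp only [this]

theorem bsum_take {α : Type} [AddCommMonoid α] (f : List Bool → α) (w u : List Bool) (k : ℕ)
    (hl : w.length ≤ k) : bsum f w (u.take k) = bsum f w u := by
  induction w with
  | nil => rfl
  | cons b w ih =>
    have hl' : w.length ≤ k := by simp at hl; omega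
    rw [bsum_cons, bsum_cons, ih hl']
    have : (b :: w) <+: u.take k ↔ (b :: w) <+: u := by
      rw [List.prefix_take_iff]; exact ⟨fun h => h.1, fun h => ⟨h, hl⟩⟩
    simp only [this]

theorem bsum_nonneg {f : List Bool → ℝ} (hf : ∀ s, 0 ≤ f s) (w u : List Bool) :
    0 ≤ bsum f w u := by
  induction w with
  | nil => simp
  | cons b w ih =>
    rw [bsum_cons]
    split_ifs
    · exact add_nonneg ih (hf _)
    · simpa using ih

theorem bsum_mono {f g : List Bool → ℝ} (w u : List Bool)
    (hf : ∀ s, s.length ≤ w.length → f s ≤ g s) : bsum f w u ≤ bsum g w u := by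
  induction w with
  | nil => simp
  | cons b w ih =>
    rw [bsum_cons, bsum_cons]
    have h1 := ih (fun s hs => hf s (by simp; omega))
    have h2 := hf (b :: w) le_rfl
    split_ifs
    · linarith
    · linarith

theorem bsum_lin (f g : List Bool → ℝ) (a c : ℝ) (w u : List Bool) :
    bsum (fun s => a * f s - c * g s) w u = a * bsum f w u - c * bsum g w u := by
  induction w with
  | nil => simp
  | cons b w ih =>
    rw [bsum_cons, bsum_cons, bsum_cons, ih]
    split_ifs <;> ring

theorem bsum_hasDerivAt (f : ℝ → List Bool → ℝ) (f' : List Bool → ℝ) (x : ℝ)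
    (h : ∀ s, HasDerivAt (fun t => f t s) (f' s) x) (w u : List Bool) :
    HasDerivAt (fun t => bsum (f t) w u) (bsum f' w u) x := by
  induction w with
  | nil => simpa using hasDerivAt_const x (0 : ℝ)
  | cons b w ih =>
    simp only [bsum_cons]
    by_cases hb : (b :: w) <+: u
    · simp only [hb, if_true]; exact ih.add (h _)
    · simp only [hb, if_false, add_zero]; exact ih

/-- the gamblers' holdings -/
noncomputable def G (p : Bool → ℝ) (w u : List Bool) : ℝ := bsum (fun s => (wt p s)⁻¹) w u

theorem G_nonneg {p : Bool → ℝ} (hp : ∀ b, 0 < p b) (w u : List Bool) : 0 ≤ G p w u :=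
  bsum_nonneg (fun s => (inv_pos.2 (wt_pos hp s)).le) w u

theorem G_step {p : Bool → ℝ} (hp : ∀ b, 0 < p b) (w u : List Bool) :
    p false * G p w (false :: u) + p true * G p w (true :: u)
      = 1 + G p w u - if w <+: u then (wt p w)⁻¹ else 0 := by
  induction w with
  | nil => simp [G]
  | cons b w ih =>
    unfold G at ih ⊢
    simp only [bsum_cons, List.cons_prefix_cons, wt_cons]
    have h0 := (hp false).ne'
    have h1 := (hp true).ne'
    have h2 := (wt_pos hp w).ne'
    have e0 : p false * (p false * wt p w)⁻¹ = (wt p w)⁻¹ := by field_simp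
    have e1 : p true * (p true * wt p w)⁻¹ = (wt p w)⁻¹ := by field_simp
    cases b <;> by_cases hw : w <+: u <;> simp only [hw] at ih ⊢ <;>
      simp only [Bool.false_eq_true, Bool.true_eq_false, and_true, and_false, if_true, if_false,
        mul_add, add_zero, e0, e1] at ih ⊢ <;> linarith

/-- the harmonic function -/
noncomputable def hfun (p : Bool → ℝ) (w u : List Bool) : ℝ :=
  1 - (p false + p true - 1) * G p w u

theorem hfun_step {p : Bool → ℝ} (hp : ∀ b, 0 < p b) (w u : List Bool) (h : ¬ w <+: u) :
    p false * hfun p w (false :: u) + p true * hfun p w (true :: u) = hfun p w u := by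
  have := G_step hp w u
  simp only [h, if_false, sub_zero] at this
  unfold hfun
  linear_combination (-(p false + p true - 1)) * this

theorem hfun_of_start {p : Bool → ℝ} {w u : List Bool} (h : w <+: u) :
    hfun p w u = hfun p w w := by
  unfold hfun G
  rw [bsum_of_le _ w w u h le_rfl]

noncomputable def Msum (p : Bool → ℝ) (w : List Bool) (n : ℕ) : ℝ :=
  ∑ u ∈ Omega w n, wt p u * hfun p w u

noncomputable def Psum (p : Bool → ℝ) (w : List Bool) (n : ℕ) : ℝ :=
  ∑ u ∈ Omega w n, wt p u

theorem Msum_zero (p : Bool → ℝ) {w : List Bool} (hw : w ≠ []) : Msum p w 0 = 1 := by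
  have : Omega w 0 = {[]} := by
    ext u
    simp only [mem_Omega, mem_singleton, List.length_eq_zero_iff]
    constructor
    · exact fun h => h.1
    · rintro rfl; simpa using hw
  simp [Msum, this, hfun, G, bsum_nil_right]

theorem Msum_succ {p : Bool → ℝ} (hp : ∀ b, 0 < p b) (w : List Bool) (n : ℕ) :
    ∃ T : ℝ, 0 ≤ T ∧ Msum p w (n + 1) = Msum p w n - hfun p w w * T := by
  refine ⟨∑ u ∈ Omega w n, ((if w <+: false :: u then wt p (false :: u) else 0)
      + (if w <+: true :: u then wt p (true :: u) else 0)), ?_, ?_⟩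
  · refine sum_nonneg (fun u _ => add_nonneg ?_ ?_) <;> split_ifs <;>
      first | exact (wt_pos hp _).le | exact le_rfl
  · unfold Msum Omega
    rw [sum_filter, sum_words_succ, sum_filter, sum_filter, mul_sum, ← sum_sub_distrib]
    refine sum_congr rfl (fun u _ => ?_)
    by_cases hu : w <:+: u
    · simp [List.infix_cons_iff, hu]
    · have hpre : ¬ w <+: u := fun h => hu h.isInfix
      have hs := hfun_step hp w u hpre
      simp only [List.infix_cons_iff, hu, or_false, not_false_eq_true, if_true, wt_cons]
      by_cases h0 : w <+: false :: u <;> by_cases h1 : w <+: true :: u <;>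
        simp only [h0, h1, not_true_eq_false, not_false_eq_true, if_true, if_false]
      · rw [hfun_of_start h0, hfun_of_start h1] at hs
        linear_combination (wt p u) * hs
      · rw [hfun_of_start h0] at hs
        linear_combination (wt p u) * hs
      · rw [hfun_of_start h1] at hs
        linear_combination (wt p u) * hs
      · linear_combination (wt p u) * hs

theorem Psum_upper {p : Bool → ℝ} (hp : ∀ b, 0 < p b) {w : List Bool} (hw : w ≠ [])
    (hη : 0 ≤ hfun p w w) {ε : ℝ} (hε : 0 < ε) (hh : ∀ u, ¬ w <:+: u → ε ≤ hfun p w u) (n : ℕ) :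
    Psum p w n ≤ 1 / ε := by
  have h1 : ∀ n, Msum p w n ≤ 1 := by
    intro n
    induction n with
    | zero => exact (Msum_zero p hw).le
    | succ n ih =>
      obtain ⟨T, hT, e⟩ := Msum_succ hp w n
      have := mul_nonneg hη hT
      linarith
  rw [le_div_iff₀ hε]
  refine le_trans ?_ (h1 n)
  unfold Psum Msum
  rw [sum_mul]
  exact sum_le_sum (fun u hu => mul_le_mul_of_nonneg_left (hh u (mem_Omega.1 hu).2) (wt_pos hp u).le)

theorem Psum_lower {p : Bool → ℝ} (hp : ∀ b, 0 < p b) {w : List Bool} (hw : w ≠ [])
    (hσ : 1 ≤ p false + p true) (hη : hfun p w w ≤ 0) (n : ℕ) : 1 ≤ Psum p w n := by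
  have h1 : ∀ n, 1 ≤ Msum p w n := by
    intro n
    induction n with
    | zero => exact (Msum_zero p hw).ge
    | succ n ih =>
      obtain ⟨T, hT, e⟩ := Msum_succ hp w n
      have := mul_nonneg (neg_nonneg.2 hη) hT
      linarith
  refine le_trans (h1 n) ?_
  unfold Psum Msum
  refine sum_le_sum (fun u _ => ?_)
  have h2 : hfun p w u ≤ 1 := by
    unfold hfun
    have := mul_nonneg (sub_nonneg.2 hσ) (G_nonneg hp w u)
    linarith
  have := mul_le_mul_of_nonneg_left h2 (wt_pos hp u).le
  linarith

end Pool.Agent.Lib.MP_1f54e8_co
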