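import Pool.Agent.Lib.MP_1f54e8_co.Formula

set_option autoImplicit false

namespace Pool.Agent.Lib.MP_1f54e8_co

open Finset Filter Topology

theorem mem_Qset {w u : List Bool} {n : ℕ} : u ∈ Qset w n ↔
    u.length = n ∧ w <:+ u ∧ ∀ s t : List Bool, s ++ w ++ t = u → t = [] := by
  classical
  unfold Qset
  simp only [mem_filter, mem_words]

theorem Qset_sub (w : List Bool) (n : ℕ) : Qset w (n + 1) ⊆
    (Omega w n).image (fun u => u ++ [false]) ∪ (Omega w n).image (fun u => u ++ [true]) := by
  intro u hu
  obtain ⟨h1, _, h3⟩ := mem_Qset.1 hu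
  have hne : u ≠ [] := by rintro rfl; simp at h1
  obtain ⟨t, a, rfl⟩ : ∃ t a, u = t ++ [a] :=
    ⟨u.dropLast, u.getLast hne, (List.dropLast_append_getLast hne).symm⟩
  have ht : t ∈ Omega w n := by
    rw [mem_Omega]
    refine ⟨by simpa using h1, ?_⟩
    rintro ⟨s, r, rfl⟩
    have := h3 s (r ++ [a]) (by simp)
    simp at this
  rw [mem_union, mem_image, mem_image]
  cases a
  · left; exact ⟨t, ht, rfl⟩
  · right; exact ⟨t, ht, rfl⟩

theorem Qsum_le {p : Bool → ℝ} (hp : ∀ b, 0 < p b) {w : List Bool} (hw : w ≠ []) {C : ℝ}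
    (hC : ∀ n, Psum p w n ≤ C) (n : ℕ) : ∑ u ∈ Qset w n, wt p u ≤ (p false + p true) * C := by
  have hP : ∀ n, 0 ≤ Psum p w n := fun n => sum_nonneg (fun u _ => (wt_pos hp u).le)
  have hσ : 0 ≤ p false + p true := (add_pos (hp _) (hp _)).le
  cases n with
  | zero =>
    have : Qset w 0 = ∅ := by
      ext u
      simp only [mem_Qset, notMem_empty, iff_false, List.length_eq_zero_iff]
      rintro ⟨rfl, h, _⟩
      exact hw (by simpa using h)
    rw [this, sum_empty]
    exact mul_nonneg hσ ((hP 0).trans (hC 0))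
  | succ n =>
    refine le_trans (sum_le_sum_of_subset_of_nonneg (Qset_sub w n)
      (fun u _ _ => (wt_pos hp u).le)) ?_
    have hdisj : Disjoint ((Omega w n).image (fun u => u ++ [false]))
        ((Omega w n).image (fun u => u ++ [true])) := by
      rw [disjoint_left]
      intro u h1 h2
      simp only [mem_image] at h1 h2
      obtain ⟨a, _, rfl⟩ := h1
      obtain ⟨b, _, h⟩ := h2
      have := congrArg List.getLast? h
      simp at this
    rw [sum_union hdisj, sum_image (fun a _ b _ h => List.append_cancel_right h),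
      sum_image (fun a _ b _ h => List.append_cancel_right h)]
    simp only [wt_append, wt_cons, wt_nil, mul_one]
    rw [← sum_mul, ← sum_mul]
    have := mul_le_mul_of_nonneg_left (hC n) hσ
    unfold Psum at this
    linarith

theorem Qcard_succ {w : List Bool} (hw : w ≠ []) (n : ℕ) :
    (Qset w n).card ≤ (Qset w (n + 1)).card := by
  cases w with
  | nil => exact absurd rfl hw
  | cons b w =>
    apply card_le_card_of_injOn (fun u => (!b) :: u)
    · intro u hu
      obtain ⟨h1, h2, h3⟩ := mem_Qset.1 (mem_coe.1 hu)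
      rw [mem_coe, mem_Qset]
      refine ⟨by simp [h1], h2.trans (List.suffix_cons _ _), fun s t h => ?_⟩
      cases s with
      | nil =>
        simp only [List.nil_append, List.cons_append, List.cons.injEq] at h
        exact absurd h.1 (by cases b <;> simp)
      | cons a s =>
        simp only [List.cons_append, List.cons.injEq] at h
        exact h3 s t (by simpa using h.2)
    · intro a _ c _ h
      simpa using h

theorem Qcard_mono {w : List Bool} (hw : w ≠ []) : Monotone (fun n => (Qset w n).card) :=
  monotone_nat_of_le_succ (Qcard_succ hw)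

theorem Omega_sub (w : List Bool) (n : ℕ) : Omega w n ⊆
    (range w.length).biUnion (fun j => (Qset w (n + (j + 1))).image (fun x => x.take n)) := by
  classical
  intro u hu
  obtain ⟨h1, h2⟩ := mem_Omega.1 hu
  have hex : ∃ j, w <:+: u ++ w.take j := ⟨w.length, by
    rw [List.take_length]; exact (List.suffix_append _ _).isInfix⟩
  have hj := Nat.find_spec hex
  have hle : Nat.find hex ≤ w.length := Nat.find_min' hex (by
    rw [List.take_length]; exact (List.suffix_append _ _).isInfix)
  obtain ⟨j, hj0⟩ : ∃ j, Nat.find hex = j + 1 := by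
    refine ⟨Nat.find hex - 1, ?_⟩
    have : Nat.find hex ≠ 0 := by
      intro h0
      rw [h0] at hj
      exact h2 (by simpa using hj)
    omega
  have hmin : ¬ w <:+: u ++ w.take j := Nat.find_min hex (by omega)
  rw [hj0] at hj hle
  have hjl : j < w.length := by omega
  have e : u ++ w.take (j + 1) = (u ++ w.take j) ++ [w[j]] := by
    rw [List.append_assoc, List.take_succ_eq_append_getElem hjl]
  rw [mem_biUnion]
  refine ⟨j, mem_range.2 hjl, mem_image.2 ⟨u ++ w.take (j + 1), ?_, ?_⟩⟩
  · rw [mem_Qset]
    refine ⟨by simp [h1]; omega, ?_, fun s t h => ?_⟩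
    · rw [e] at hj ⊢
      exact (List.infix_concat_iff.1 hj).resolve_right hmin
    · by_contra hne
      obtain ⟨t', a, rfl⟩ : ∃ t' a, t = t' ++ [a] :=
        ⟨t.dropLast, t.getLast hne, (List.dropLast_append_getLast hne).symm⟩
      rw [e, ← List.append_assoc] at h
      exact hmin ⟨s, t', (List.append_inj' h rfl).1⟩
  · rw [← h1]; simp

theorem Omega_card_le {w : List Bool} (hw : w ≠ []) (n : ℕ) :
    (Omega w n).card ≤ w.length * (Qset w (n + w.length)).card := by
  refine (card_le_card (Omega_sub w n)).trans (card_biUnion_le.trans ?_)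
  have : ∀ j ∈ range w.length, ((Qset w (n + (j + 1))).image (fun x => x.take n)).card
      ≤ (Qset w (n + w.length)).card := by
    intro j hj
    exact card_image_le.trans (Qcard_mono hw (by have := mem_range.1 hj; omega))
  simpa using sum_le_sum this

theorem hasQ_rhoF {z : ℝ} (hz : 1 / 2 < z) (hz1 : z < 1) {w : List Bool} (hk : 2 ≤ w.length)
    (hR : ¬ InR w) (h1 : (2 * z - 1) * B0 z w w = 1) : HasQ w (rhoF z w) := by
  have hz0 : 0 < z := by linarith
  have hw : w ≠ [] := by rintro rfl; simp at hk
  have hB : 0 < B0 z w w := lt_of_lt_of_le (by positivity) (B0_self_ge hz0 hw)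
  have hkpos : (0 : ℝ) < w.length := by exact_mod_cast (by omega : 0 < w.length)
  refine freq_tendsto (fun n => Qset w n) (fun n u hu => (mem_Qset.1 hu).1) hz0
    (c := z ^ w.length / w.length) (by positivity) ?_ (fun r hr => ?_)
  · filter_upwards [eventually_ge_atTop w.length] with n hn
    obtain ⟨m, rfl⟩ : ∃ m, n = m + w.length := ⟨n - w.length, by omega⟩
    have h2 := Omega_lower hz hw h1 m
    have h3 : ((Omega w m).card : ℝ) ≤ w.length * (Qset w (m + w.length)).card := by
      exact_mod_cast Omega_card_le hw m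
    have h4 := mul_le_mul_of_nonneg_right h3 (pow_pos hz0 m).le
    have h5 := mul_le_mul_of_nonneg_right (h2.trans h4) (pow_pos hz0 w.length).le
    rw [div_le_iff₀ hkpos, pow_add]
    linarith
  · obtain ⟨s, C, hs, hC⟩ :=
      Psum_tilt hz0 hw h1 (cond2 hz hz1 hk hR h1) (cond3 hz hz1 hk h1) hB r hr
    exact ⟨s, _, hs, Qsum_le (tilt_pos hz0 r s) hw hC⟩

end Pool.Agent.Lib.MP_1f54e8_co
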