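import Pool.Agent.Lib.MP_1f54e8_co.Defs

set_option autoImplicit false

namespace Pool.Agent.Lib.MP_1f54e8_co

/-- `HasQStop w q`: the series of `2^(-n) |u|_1 / n` over all `n` and all words `u` of length `n`
whose only occurrence of `w` is at the end converges to `q`.  So `q` is the expected frequency of
1s in a sequence of fair coin flips stopped at the first occurrence of `w`. -/
def HasQStop (w : List Bool) (q : ℝ) : Prop :=
  HasSum (fun n : ℕ => ∑ u ∈ Qset w n, (1 / 2 : ℝ) ^ n * ((u.count true : ℝ) / (n : ℝ))) q

end Pool.Agent.Lib.MP_1f54e8_co
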