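import Pool.Agent.Lib.MP_1f54e8_co.Border
import Pool.Agent.Lib.MP_1f54e8_co.QPart
import Pool.Agent.Lib.MP_1f54e8_co.StopDefs

set_option autoImplicit false

namespace Pool.Agent.Lib.MP_1f54e8_co

open Finset Filter Topology

/-- words of length `n` that begin with `w` and have no other occurrence of `w` -/
def Pset (w : List Bool) (n : ℕ) : Finset (List Bool) :=
  (words n).filter (fun u => w <+: u ∧ ¬ w <:+: u.tail)

theorem mem_Pset {w u : List Bool} {n : ℕ} :
    u ∈ Pset w n ↔ u.length = n ∧ w <+: u ∧ ¬ w <:+: u.tail := by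
  unfold Pset
  rw [mem_filter, mem_words]

theorem Pset_zero {w : List Bool} (hw : w ≠ []) : Pset w 0 = ∅ := by
  ext u
  simp only [mem_Pset, notMem_empty, iff_false, List.length_eq_zero_iff]
  rintro ⟨rfl, h, _⟩
  exact hw (by simpa using h)

theorem sum_Qset {w : List Bool} (hw : w ≠ []) (n : ℕ) (f : ℕ → ℝ) :
    ∑ u ∈ Qset w n, f (u.count true) = ∑ u ∈ Pset w.reverse n, f (u.count true) := by
  refine sum_bij' (fun u _ => u.reverse) (fun u _ => u.reverse) ?_ ?_ ?_ ?_ ?_
  · intro u hu
    obtain ⟨h1, h2, h3⟩ := mem_Qset.1 hu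
    rw [mem_Pset]
    refine ⟨by simpa using h1, List.reverse_prefix.2 h2, ?_⟩
    rintro ⟨s, t, h⟩
    have hne : u.reverse ≠ [] := by
      intro h0
      have : u = [] := by simpa using h0
      subst this
      exact hw (by simpa using h2)
    obtain ⟨a, r, har⟩ := List.exists_cons_of_ne_nil hne
    rw [har, List.tail_cons] at h
    have e : u = t.reverse ++ w ++ (s.reverse ++ [a]) := by
      have := congrArg List.reverse har
      rw [List.reverse_reverse, ← h] at this
      simpa using this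
    have := h3 _ _ e.symm
    simp at this
  · intro u hu
    obtain ⟨h1, h2, h3⟩ := mem_Pset.1 hu
    rw [mem_Qset]
    refine ⟨by simpa using h1, by
      have := List.reverse_suffix.2 h2
      simpa using this, fun s t h => ?_⟩
    by_contra hne
    have hne' : t.reverse ≠ [] := by simpa using hne
    obtain ⟨a, r, har⟩ := List.exists_cons_of_ne_nil hne'
    have e : u = a :: (r ++ w.reverse ++ s.reverse) := by
      have := congrArg List.reverse h
      rw [List.reverse_reverse] at this
      rw [← this]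
      simp [har]
    apply h3
    rw [e, List.tail_cons]
    exact ⟨r, s.reverse, rfl⟩
  · intro u _; simp
  · intro u _; simp
  · intro u _; simp

theorem borders_reverse (w : List Bool) : borders w.reverse = borders w := by
  unfold borders
  rw [List.length_reverse]
  refine filter_congr (fun j hj => ?_)
  have hj' := (mem_Icc.1 hj).2
  have h1 : (w.drop (w.length - j)).length = j := by simp; omega
  have h2 : (w.take j).length = j := by simp; omega
  rw [List.take_reverse, List.reverse_suffix, List.prefix_iff_eq_take, List.suffix_iff_eq_drop,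
    h1, h2]
  exact eq_comm

noncomputable def Tsum (p : Bool → ℝ) (w : List Bool) (n : ℕ) : ℝ := ∑ u ∈ Pset w n, wt p u

theorem Msum_succ' {p : Bool → ℝ} (hp : ∀ b, 0 < p b) (w : List Bool) (n : ℕ) :
    Msum p w (n + 1) = Msum p w n - hfun p w w * Tsum p w (n + 1) := by
  unfold Msum Tsum Omega Pset
  rw [sum_filter, sum_words_succ, sum_filter, sum_filter, sum_words_succ, mul_sum,
    ← sum_sub_distrib]
  refine sum_congr rfl (fun u _ => ?_)
  by_cases hu : w <:+: u
  · simp [List.infix_cons_iff, hu]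
  · have hpre : ¬ w <+: u := fun h => hu h.isInfix
    have hs := hfun_step hp w u hpre
    simp only [List.infix_cons_iff, hu, or_false, not_false_eq_true, if_true, wt_cons,
      List.tail_cons, and_true]
    by_cases h0 : w <+: false :: u <;> by_cases h1 : w <+: true :: u <;>
      simp only [h0, h1, not_true_eq_false, not_false_eq_true, if_true, if_false]
    · rw [hfun_of_start h0, hfun_of_start h1] at hs
      linear_combination (wt p u) * hs
    · rw [hfun_of_start h0] at hs
      linear_combination (wt p u) * hs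
    · rw [hfun_of_start h1] at hs
      linear_combination (wt p u) * hs
    · linear_combination (wt p u) * hs

theorem Msum_add {p : Bool → ℝ} (hp : ∀ b, 0 < p b) {w : List Bool} (hw : w ≠ []) (N : ℕ) :
    Msum p w N + hfun p w w * ∑ n ∈ range (N + 1), Tsum p w n = 1 := by
  induction N with
  | zero => simp [Msum_zero p hw, Tsum, Pset_zero hw]
  | succ N ih =>
    rw [sum_range_succ, Msum_succ' hp]
    linear_combination ih

/-- number of words, and total number of 1s -/
noncomputable def bb (w : List Bool) (n : ℕ) : ℝ := ((Pset w n).card : ℝ)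
noncomputable def aa (w : List Bool) (n : ℕ) : ℝ := ∑ u ∈ Pset w n, (u.count true : ℝ)

theorem card_words (n : ℕ) : ((words n).card : ℝ) = 2 ^ n := by
  induction n with
  | zero =>
    have : words 0 = {[]} := by
      ext u; simp [mem_words]
    simp [this]
  | succ n ih =>
    have := sum_words_succ (fun _ => (1 : ℝ)) n
    simp only [sum_const, nsmul_eq_mul, mul_one] at this
    rw [this, ih]; ring

theorem bb_nonneg (w : List Bool) (n : ℕ) : 0 ≤ bb w n := Nat.cast_nonneg _

theorem bb_le (w : List Bool) (n : ℕ) : bb w n ≤ 2 ^ n := by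
  rw [← card_words]
  unfold bb
  exact_mod_cast card_le_card (filter_subset _ _)

theorem aa_nonneg (w : List Bool) (n : ℕ) : 0 ≤ aa w n :=
  sum_nonneg (fun _ _ => Nat.cast_nonneg _)

theorem aa_le (w : List Bool) (n : ℕ) : aa w n ≤ n * bb w n := by
  unfold aa bb
  have : ∀ u ∈ Pset w n, (u.count true : ℝ) ≤ n := by
    intro u hu
    rw [← (mem_Pset.1 hu).1]
    exact_mod_cast List.count_le_length
  simpa [mul_comm] using sum_le_sum this

theorem wt_tilt0 (z : ℝ) (u : List Bool) : wt (tilt z 0 0) u = z ^ u.length := by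
  rw [wt_tilt]; simp

theorem Tsum_zero (z : ℝ) (w : List Bool) (n : ℕ) : Tsum (tilt z 0 0) w n = bb w n * z ^ n := by
  unfold Tsum bb
  rw [sum_congr rfl (fun u hu => by rw [wt_tilt0, (mem_Pset.1 hu).1])]
  simp

theorem wt_hasDerivAt (z : ℝ) (u : List Bool) :
    HasDerivAt (fun s => wt (tilt z 0 s) u) (z ^ u.length * (u.count true : ℝ)) 0 := by
  have : (fun s => wt (tilt z 0 s) u)
      = fun s => z ^ u.length * Real.exp (s * (u.count true : ℝ)) := by
    funext s
    rw [wt_tilt]; simp
  rw [this]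
  have h1 : HasDerivAt (fun s : ℝ => s * (u.count true : ℝ)) (u.count true : ℝ) 0 := by
    simpa using (hasDerivAt_id (0 : ℝ)).mul_const (u.count true : ℝ)
  exact (h1.exp.const_mul (z ^ u.length)).congr_deriv (by simp)

theorem Tsum_hasDerivAt (z : ℝ) (w : List Bool) (n : ℕ) :
    HasDerivAt (fun s => Tsum (tilt z 0 s) w n) (aa w n * z ^ n) 0 := by
  unfold Tsum aa
  have := HasDerivAt.fun_sum (u := Pset w n) (fun u _ => wt_hasDerivAt z u)
  refine this.congr_deriv ?_
  rw [sum_mul]
  exact sum_congr rfl (fun u hu => by rw [(mem_Pset.1 hu).1]; ring)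

/-- value and derivative of the harmonic function -/
noncomputable def h0 (z : ℝ) (w u : List Bool) : ℝ := 1 + (1 - 2 * z) * B0 z w u
noncomputable def h1 (z : ℝ) (w u : List Bool) : ℝ := z * B0 z w u + (1 - 2 * z) * B1 z w u

theorem hfun_val (z : ℝ) (w u : List Bool) : hfun (tilt z 0 0) w u = h0 z w u := by
  rw [hfun_zero]; unfold h0; ring

theorem hfun_der (z : ℝ) (w u : List Bool) :
    HasDerivAt (fun s => hfun (tilt z 0 s) w u) (-h1 z w u) 0 :=
  (hfun_hasDerivAt z 0 w u).congr_deriv (by unfold h1; ring)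

noncomputable def Mder (z : ℝ) (w : List Bool) (N : ℕ) : ℝ :=
  ∑ u ∈ Omega w N, (z ^ N * (u.count true : ℝ) * h0 z w u - z ^ N * h1 z w u)

theorem Msum_hasDerivAt (z : ℝ) (w : List Bool) (N : ℕ) :
    HasDerivAt (fun s => Msum (tilt z 0 s) w N) (Mder z w N) 0 := by
  unfold Msum Mder
  have := HasDerivAt.fun_sum (u := Omega w N)
    (fun u _ => (wt_hasDerivAt z u).fun_mul (hfun_der z w u))
  refine this.congr_deriv ?_
  refine sum_congr rfl (fun u hu => ?_)
  rw [hfun_val, wt_tilt0, (mem_Omega.1 hu).1]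
  ring

theorem ident0 {z : ℝ} (hz : 0 < z) {w : List Bool} (hw : w ≠ []) (N : ℕ) :
    ∑ u ∈ Omega w N, z ^ N * h0 z w u + h0 z w w * ∑ n ∈ range (N + 1), bb w n * z ^ n = 1 := by
  have := Msum_add (tilt_pos hz 0 0) hw N
  rw [hfun_val] at this
  simp only [Tsum_zero] at this
  rw [← this]
  congr 1
  unfold Msum
  exact sum_congr rfl (fun u hu => by rw [hfun_val, wt_tilt0, (mem_Omega.1 hu).1])

theorem ident1 {z : ℝ} (hz : 0 < z) {w : List Bool} (hw : w ≠ []) (N : ℕ) :
    Mder z w N + (-h1 z w w * ∑ n ∈ range (N + 1), bb w n * z ^ n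
      + h0 z w w * ∑ n ∈ range (N + 1), aa w n * z ^ n) = 0 := by
  have hT := HasDerivAt.fun_sum (u := range (N + 1)) (fun n _ => Tsum_hasDerivAt z w n)
  have h := (Msum_hasDerivAt z w N).fun_add ((hfun_der z w w).fun_mul hT)
  have hc : (fun s => Msum (tilt z 0 s) w N
      + hfun (tilt z 0 s) w w * ∑ n ∈ range (N + 1), Tsum (tilt z 0 s) w n) = fun _ => (1 : ℝ) := by
    funext s
    exact Msum_add (tilt_pos hz 0 s) hw N
  rw [hc] at h
  have := h.unique (hasDerivAt_const (0 : ℝ) (1 : ℝ))
  rw [hfun_val] at this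
  simp only [Tsum_zero] at this
  exact this

theorem B1_nonneg {z : ℝ} (hz : 0 < z) (w u : List Bool) : 0 ≤ B1 z w u :=
  bsum_nonneg (fun s => by positivity) w u

theorem B1_le {z : ℝ} (hz : 0 < z) (w u : List Bool) : B1 z w u ≤ w.length * B0 z w u := by
  have h := bsum_lin (fun t => (z ^ t.length)⁻¹) (fun _ => 0) (w.length : ℝ) 0 w u
  unfold B1 B0
  refine le_trans (bsum_mono w u (fun s hs => ?_)) (h.le.trans (by simp))
  have h1 : (s.count true : ℝ) ≤ w.length := by
    exact_mod_cast List.count_le_length.trans hs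
  have h2 : 0 < (z ^ s.length)⁻¹ := by positivity
  nlinarith

theorem card_Omega (w : List Bool) (n : ℕ) : ((Omega w n).card : ℝ) ≤ 2 ^ n := by
  rw [← card_words]
  exact_mod_cast card_le_card (filter_subset _ _)

theorem h0_pos {z : ℝ} (hz : 0 < z) (hz2 : z ≤ 1 / 2) (w u : List Bool) : 0 < h0 z w u := by
  have := mul_nonneg (show 0 ≤ 1 - 2 * z by linarith) (B0_nonneg hz w u)
  unfold h0; linarith

theorem h0_le {z : ℝ} (hz : 0 < z) (_hz2 : z ≤ 1 / 2) (w u : List Bool) :
    h0 z w u ≤ 1 + A z w.length := by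
  have h1 := B0_nonneg hz w u
  have h2 := B0_le_A hz w u
  unfold h0; nlinarith

theorem h1_nonneg {z : ℝ} (hz : 0 < z) (hz2 : z ≤ 1 / 2) (w u : List Bool) : 0 ≤ h1 z w u :=
  add_nonneg (mul_nonneg hz.le (B0_nonneg hz w u))
    (mul_nonneg (by linarith) (B1_nonneg hz w u))

theorem h1_le {z : ℝ} (hz : 0 < z) (hz2 : z ≤ 1 / 2) (w u : List Bool) :
    h1 z w u ≤ (1 + w.length) * A z w.length := by
  have h1' := B0_nonneg hz w u
  have h2 := B0_le_A hz w u
  have h3 := B1_nonneg hz w u
  have h4 := B1_le hz w u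
  have h5 : (w.length : ℝ) * B0 z w u ≤ w.length * A z w.length :=
    mul_le_mul_of_nonneg_left h2 (Nat.cast_nonneg _)
  unfold h1; nlinarith

theorem summable_bb {z : ℝ} (hz : 0 < z) (hz2 : z < 1 / 2) (w : List Bool) :
    Summable (fun n => bb w n * z ^ n) := by
  refine Summable.of_nonneg_of_le (fun n => mul_nonneg (bb_nonneg w n) (by positivity))
    (fun n => ?_) (summable_geometric_of_lt_one (r := 2 * z) (by linarith) (by linarith))
  rw [mul_pow]
  exact mul_le_mul_of_nonneg_right (bb_le w n) (by positivity)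

theorem aa_le' (w : List Bool) (n : ℕ) : aa w n ≤ n * 2 ^ n :=
  (aa_le w n).trans (mul_le_mul_of_nonneg_left (bb_le w n) (Nat.cast_nonneg _))

theorem summable_geo {z : ℝ} (hz : 0 < z) (hz2 : z < 1 / 2) :
    Summable (fun n : ℕ => (n : ℝ) * (2 * z) ^ n) :=
  (hasSum_coe_mul_geometric_of_norm_lt_one (r := 2 * z)
    (by rw [Real.norm_eq_abs, abs_lt]; constructor <;> linarith)).summable

theorem summable_aa {z : ℝ} (hz : 0 < z) (hz2 : z < 1 / 2) (w : List Bool) :
    Summable (fun n => aa w n * z ^ n) := by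
  refine Summable.of_nonneg_of_le (fun n => mul_nonneg (aa_nonneg w n) (by positivity))
    (fun n => ?_) (summable_geo hz hz2)
  rw [mul_pow, ← mul_assoc]
  exact mul_le_mul_of_nonneg_right (aa_le' w n) (by positivity)

theorem tsum_aa {z : ℝ} (hz : 0 < z) (hz2 : z < 1 / 2) {w : List Bool} (hw : w ≠ []) :
    ∑' n, aa w n * z ^ n = h1 z w w / h0 z w w ^ 2 := by
  have hb := ((summable_bb hz hz2 w).hasSum.tendsto_sum_nat).comp (tendsto_add_atTop_nat 1)
  have ha := ((summable_aa hz hz2 w).hasSum.tendsto_sum_nat).comp (tendsto_add_atTop_nat 1)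
  have g0 := tendsto_pow_atTop_nhds_zero_of_lt_one (r := 2 * z) (by linarith) (by linarith)
  have g1 := tendsto_self_mul_const_pow_of_lt_one (r := 2 * z) (by linarith) (by linarith)
  have hM0 : Tendsto (fun N => ∑ u ∈ Omega w N, z ^ N * h0 z w u) atTop (𝓝 0) := by
    refine squeeze_zero (fun N => sum_nonneg (fun u _ => mul_nonneg (by positivity)
      (h0_pos hz hz2.le w u).le)) (fun N => ?_)
      (by simpa using g0.mul_const (1 + A z w.length))
    have h1 := sum_le_sum (s := Omega w N) (fun u _ =>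
      mul_le_mul_of_nonneg_left (h0_le hz hz2.le w u) (show 0 ≤ z ^ N by positivity))
    refine h1.trans ?_
    rw [sum_const, nsmul_eq_mul, mul_pow, mul_assoc]
    exact mul_le_mul_of_nonneg_right (card_Omega w N)
      (mul_nonneg (by positivity) ((h0_pos hz hz2.le w w).le.trans (h0_le hz hz2.le w w)))
  have hM1 : Tendsto (fun N => Mder z w N) atTop (𝓝 0) := by
    have hH := (h0_pos hz hz2.le w w).le.trans (h0_le hz hz2.le w w)
    have hH' := (h1_nonneg hz hz2.le w w).trans (h1_le hz hz2.le w w)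
    refine squeeze_zero_norm (fun N => ?_) (by
      simpa using (g1.mul_const (1 + A z w.length)).add
        (g0.mul_const ((1 + w.length) * A z w.length)))
    unfold Mder
    refine (norm_sum_le _ _).trans ?_
    have h2 : ∀ u ∈ Omega w N, ‖z ^ N * (u.count true : ℝ) * h0 z w u - z ^ N * h1 z w u‖
        ≤ z ^ N * (N * (1 + A z w.length) + (1 + w.length) * A z w.length) := by
      intro u hu
      have c1 : (u.count true : ℝ) ≤ N := by
        rw [← (mem_Omega.1 hu).1]
        exact_mod_cast List.count_le_length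
      have c0 : (0 : ℝ) ≤ u.count true := Nat.cast_nonneg _
      have c2 := h0_pos hz hz2.le w u
      have c3 := h0_le hz hz2.le w u
      have c4 := h1_nonneg hz hz2.le w u
      have c5 := h1_le hz hz2.le w u
      have c6 : (u.count true : ℝ) * h0 z w u ≤ N * (1 + A z w.length) :=
        mul_le_mul c1 c3 c2.le (Nat.cast_nonneg _)
      have c7 : 0 ≤ (u.count true : ℝ) * h0 z w u := mul_nonneg c0 c2.le
      rw [mul_assoc, ← mul_sub, norm_mul, Real.norm_eq_abs, Real.norm_eq_abs,
        abs_of_pos (by positivity)]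
      refine mul_le_mul_of_nonneg_left ?_ (by positivity)
      rw [abs_le]
      constructor <;> linarith
    refine (sum_le_sum h2).trans ?_
    rw [sum_const, nsmul_eq_mul]
    have c8 : 0 ≤ z ^ N * (N * (1 + A z w.length) + (1 + w.length) * A z w.length) :=
      mul_nonneg (by positivity) (add_nonneg (mul_nonneg (Nat.cast_nonneg _) hH) hH')
    refine (mul_le_mul_of_nonneg_right (card_Omega w N) c8).trans (le_of_eq ?_)
    rw [mul_pow]; ring
  have e0 := tendsto_nhds_unique (hM0.add (hb.const_mul (h0 z w w)))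
    (tendsto_const_nhds.congr (fun N => (ident0 hz hw N).symm))
  have e1 := tendsto_nhds_unique (hM1.add ((hb.const_mul (-h1 z w w)).add
    (ha.const_mul (h0 z w w)))) (tendsto_const_nhds.congr (fun N => (ident1 hz hw N).symm))
  have hp := (h0_pos hz hz2.le w w).ne'
  rw [eq_div_iff (pow_ne_zero 2 hp)]
  linear_combination (h0 z w w) * e1 + (h1 z w w) * e0

theorem summable_half {w : List Bool} (hw : w ≠ []) :
    Summable (fun n => bb w n * (1 / 2 : ℝ) ^ n) := by
  refine summable_of_sum_range_le (c := 1)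
    (fun n => mul_nonneg (bb_nonneg w n) (by positivity)) (fun N => ?_)
  have h := ident0 (z := 1 / 2) (by norm_num) hw N
  have e : ∀ u, h0 (1 / 2) w u = 1 := fun u => by unfold h0; ring
  simp only [e, mul_one, one_mul] at h
  have h2 : 0 ≤ ∑ _u ∈ Omega w N, (1 / 2 : ℝ) ^ N := sum_nonneg (fun _ _ => by positivity)
  rw [sum_range_succ] at h
  have h3 : 0 ≤ bb w N * (1 / 2 : ℝ) ^ N := mul_nonneg (bb_nonneg w N) (by positivity)
  linarith

noncomputable def ff (w : List Bool) (z : ℝ) : ℝ := ∑' n, aa w n / n * z ^ n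

theorem term_le (w : List Bool) (n : ℕ) {z : ℝ} (hz : z ∈ Set.Icc (0 : ℝ) (1 / 2)) :
    ‖aa w n / n * z ^ n‖ ≤ bb w n * (1 / 2 : ℝ) ^ n := by
  have h1 : aa w n / n ≤ bb w n := by
    rcases Nat.eq_zero_or_pos n with rfl | hn
    · simpa using bb_nonneg w 0
    · rw [div_le_iff₀ (by exact_mod_cast hn), mul_comm]; exact aa_le w n
  have h2 : 0 ≤ aa w n / n := div_nonneg (aa_nonneg w n) (Nat.cast_nonneg _)
  rw [Real.norm_of_nonneg (mul_nonneg h2 (pow_nonneg hz.1 n))]
  exact mul_le_mul h1 (pow_le_pow_left₀ hz.1 hz.2 n) (pow_nonneg hz.1 n) (bb_nonneg w n)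

theorem ff_continuousOn {w : List Bool} (hw : w ≠ []) :
    ContinuousOn (ff w) (Set.Icc 0 (1 / 2)) :=
  continuousOn_tsum (fun _ => by fun_prop) (summable_half hw) (fun n _ hz => term_le w n hz)

theorem ff_zero (w : List Bool) : ff w 0 = 0 := by
  unfold ff
  have : ∀ n : ℕ, aa w n / n * (0 : ℝ) ^ n = 0 := by
    intro n
    rcases Nat.eq_zero_or_pos n with rfl | hn
    · simp
    · simp [hn.ne']
  simp [this]

theorem ff_hasDerivAt {w : List Bool} (hw : w ≠ []) {z : ℝ} (hz : 0 < z) (hz2 : z < 1 / 2) :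
    HasDerivAt (ff w) (h1 z w w / h0 z w w ^ 2 / z) z := by
  set r : ℝ := (z + 1 / 2) / 2 with hr
  have hr0 : 0 < r := by linarith
  have hr2 : r < 1 / 2 := by linarith
  have hzr : z < r := by linarith
  have h := hasDerivAt_tsum_of_isPreconnected (u := fun n : ℕ => (n : ℝ) * (2 * r) ^ n / (z / 2))
    (g := fun n y => aa w n / n * y ^ n) (g' := fun n y => aa w n * y ^ n / y)
    (t := Set.Ioo (z / 2) r) (y₀ := z) (y := z)
    ((summable_geo hr0 hr2).div_const _) isOpen_Ioo isPreconnected_Ioo ?_ ?_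
    ⟨by linarith, hzr⟩
    (Summable.of_norm_bounded (summable_half hw) (fun n => term_le w n ⟨hz.le, hz2.le⟩))
    ⟨by linarith, hzr⟩
  · refine h.congr_deriv ?_
    rw [tsum_div_const, tsum_aa hz hz2 hw]
  · intro n y hy
    have hy0 : 0 < y := by linarith [hy.1]
    refine ((hasDerivAt_pow n y).const_mul (aa w n / n)).congr_deriv ?_
    rcases n with _ | n
    · simp [aa, Pset_zero hw]
    · have : ((n + 1 : ℕ) : ℝ) ≠ 0 := by positivity
      rw [Nat.add_sub_cancel, pow_succ]
      field_simp
  · intro n y hy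
    have hy0 : 0 < y := by linarith [hy.1]
    have h1 : aa w n * y ^ n ≤ (n : ℝ) * (2 * r) ^ n := by
      rw [mul_pow, ← mul_assoc]
      exact mul_le_mul (aa_le' w n) (pow_le_pow_left₀ hy0.le hy.2.le n) (by positivity)
        (by positivity)
    have h2 : 0 ≤ aa w n * y ^ n := mul_nonneg (aa_nonneg w n) (by positivity)
    rw [Real.norm_of_nonneg (div_nonneg h2 hy0.le)]
    exact div_le_div₀ (h2.trans h1) h1 (by linarith) hy.1.le

theorem hasQStop_ff {w : List Bool} (hw : w ≠ []) : HasQStop w (ff w.reverse (1 / 2)) := by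
  have hw' : w.reverse ≠ [] := by simpa using hw
  have hs : Summable (fun n => aa w.reverse n / n * (1 / 2 : ℝ) ^ n) :=
    Summable.of_norm_bounded (summable_half hw')
      (fun n => term_le w.reverse n ⟨by norm_num, le_rfl⟩)
  unfold HasQStop
  have e : (fun n : ℕ => ∑ u ∈ Qset w n, (1 / 2 : ℝ) ^ n * ((u.count true : ℝ) / (n : ℝ)))
      = fun n => aa w.reverse n / n * (1 / 2 : ℝ) ^ n := by
    funext n
    rw [sum_Qset hw n (fun c => (1 / 2 : ℝ) ^ n * ((c : ℝ) / (n : ℝ)))]
    unfold aa
    rw [sum_div, sum_mul]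
    exact sum_congr rfl (fun u _ => by ring)
  rw [e]
  exact hs.hasSum

theorem ff_lt {v w : List Bool} (hv : v ≠ []) (hw : w ≠ []) (hb : borders v = borders w)
    (hc : v.count true < w.count true) : ff v (1 / 2) < ff w (1 / 2) := by
  have hmono : StrictMonoOn (fun z => ff w z - ff v z) (Set.Icc 0 (1 / 2)) := by
    refine strictMonoOn_of_deriv_pos (convex_Icc _ _)
      ((ff_continuousOn hw).sub (ff_continuousOn hv)) (fun z hz => ?_)
    rw [interior_Icc] at hz
    rw [((ff_hasDerivAt hw hz.1 hz.2).fun_sub (ff_hasDerivAt hv hz.1 hz.2)).deriv]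
    have e0 := B0_eq_of_borders z hb
    have hB := B1_lt hz.1 (by linarith [hz.2]) hw hb hc
      (le_trans (by linarith [hz.2]) (pow_pos hz.1 _).le)
    have e1 : h0 z v v = h0 z w w := by unfold h0; rw [e0]
    have e2 : h1 z v v < h1 z w w := by
      unfold h1; rw [e0]
      have := mul_lt_mul_of_pos_left hB (show 0 < 1 - 2 * z by linarith [hz.2])
      linarith
    rw [e1, sub_pos]
    have := h0_pos hz.1 hz.2.le w w
    exact div_lt_div_of_pos_right (div_lt_div_of_pos_right e2 (by positivity)) hz.1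
  have := hmono (show (0 : ℝ) ∈ Set.Icc (0 : ℝ) (1 / 2) from ⟨le_rfl, by norm_num⟩)
    (show (1 / 2 : ℝ) ∈ Set.Icc (0 : ℝ) (1 / 2) from ⟨by norm_num, le_rfl⟩) (by norm_num)
  simp only [ff_zero] at this
  linarith

theorem qstop_lt {v w : List Bool} (hv : v ≠ []) (hw : w ≠ []) (hb : borders v = borders w)
    (hc : v.count true < w.count true) :
    ∃ qv qw : ℝ, HasQStop v qv ∧ HasQStop w qw ∧ qv < qw :=
  ⟨_, _, hasQStop_ff hv, hasQStop_ff hw, ff_lt (by simpa using hv) (by simpa using hw)
    (by rw [borders_reverse, borders_reverse, hb]) (by simpa using hc)⟩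

end Pool.Agent.Lib.MP_1f54e8_co
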